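import Pool.Agent.Q162.GR.Data

/-! # Project GR: job KC -/

set_option autoImplicit false

namespace Pool.Agent.Q162.GR

open Finset Pool.Agent Pool.Agent.TH176.Nag Pool.Agent.TH603.Sur Pool.Agent.TH2.NU
open Pool.Agent.TH641.UM Pool.Agent.Y205.FW Pool.Agent.Y205.MD Pool.Agent.H200W Pool.Agent.H200P
open Pool.Agent.H200C Pool.Agent.H200G

/-- **Job KC.** -/
theorem kC : S_KC := by
  intro hReg hUnits hLeaf hNum hAcc hColor hColNum d h K J w hh hJ hw hWin hJh hbig
  obtain ⟨V, N, R, hV⟩ := colors hColor J w hw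
  have hwsum : ∑ k ∈ J, lf (V k) (fun v => 256 * N k v) (fun v => v) (R k) = ∑ k ∈ J, w k :=
    Finset.sum_congr rfl fun k hk => (hV k hk).2.1
  have het : ∀ k, 256 ≤ et k := by
    intro k
    unfold et
    have h1 : (1 : ℝ) ≤ 2 ^ k := one_le_pow₀ (by norm_num)
    linarith
  have hh16 : 16384 ≤ h := by
    obtain ⟨k0, hk0⟩ := hJ
    have h1 := hJh k0 hk0
    have h2 := het k0
    linarith
  -- the windows
  have hWin' : ∀ f : ℕ, ∃ Λ : ℝ, d ≤ f → 0 ≤ Λ ∧ Λ + 2 * (f + 2) ≤ XX K f / (64 * h) ∧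
      GoodSK K h (1024 * h ^ 2) (↑(HX 0 0 0 f) : Set (ℤ × ℤ)) (XX K f - Λ) ∧
      GoodEK K h (1024 * h ^ 2) (↑(HX 0 0 0 f) : Set (ℤ × ℤ)) (XX K f + Λ) := by
    intro f
    by_cases hf : d ≤ f
    · obtain ⟨Λ, hΛ⟩ := hWin f hf
      exact ⟨Λ, fun _ => hΛ⟩
    · exact ⟨0, fun h => absurd h hf⟩
  choose Λ hΛ using hWin'
  have key := hAcc (S := HX 0 0 0 d) HX_nonneg J V N
    ((HX 0 0 0 d).card - TH2.NU.condM (K + ∑ k ∈ J, w k))
    (K + ∑ k ∈ J, ((R k).map fun x => Multiset.replicate x.1 x.2).sum) (by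
    intro a g0 g1 hl
    obtain ⟨L, hIt, hM, hE1, hs1, he1, hes, hs2, hsq, hW1, hcd, hgain⟩ :=
      data hUnits hColNum (fun k hk => (hV k hk).1) hl
    rw [add_left_comm, ← leaf_eq]
    set F := ∑ k ∈ J, lf (V k) (N k) (a k) (R k) with hF
    have hFM : ∑ k ∈ J, tM (L k) = F := Finset.sum_congr rfl fun k hk => hM k hk
    set W := ∑ k ∈ J, WW (V k) (N k) with hW
    have hWR : (W : ℝ) = ∑ k ∈ J, (WW (V k) (N k) : ℝ) := by
      rw [hW]
      push_cast
      rfl
    have hW0 : (0 : ℝ) ≤ W := Nat.cast_nonneg W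
    have hE2 : 2 * h ^ 2 ≤ ∑ k ∈ J, tE (L k) := by
      have h1 : 99 / 100 * ∑ k ∈ J, ((w k).map fun v : ℕ => (v : ℝ) ^ 2).sum ≤
          ∑ k ∈ J, ∑ v ∈ V k, (256 * N k v : ℝ) * (v : ℝ) ^ 2 := by
        rw [Finset.mul_sum]
        exact Finset.sum_le_sum fun k hk => (hV k hk).2.2
      have h2 : 0 ≤ h ^ 2 := sq_nonneg h
      linarith
    obtain ⟨L', hIw, hM', hS', hE'⟩ := hReg J L h hh hIt hE1 hJh hE2
    rw [hFM] at hM'
    set s := tS L' with hs
    set e := tE L' with he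
    have hsW : ∑ k ∈ J, tS (L k) ≤ h * W / 6400 := by
      refine hs2.trans ?_
      rw [hWR, Finset.mul_sum, Finset.sum_div]
      refine Finset.sum_le_sum fun k hk => ?_
      have h1 := hJh k hk
      have h2 : (0 : ℝ) ≤ (WW (V k) (N k) : ℝ) := Nat.cast_nonneg _
      have h3 : 64 * et k * (WW (V k) (N k) : ℝ) ≤ h * (WW (V k) (N k) : ℝ) :=
        mul_le_mul_of_nonneg_right h1 h2
      linarith
    have hh0 : 0 < h := by linarith
    have hs3 : s ≤ ∑ k ∈ J, tS (L k) + 3 / 4 * W / 6400 := by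
      refine hS'.trans ?_
      have h1 : 3 / 4 * (∑ k ∈ J, tE (L k)) / h ≤ 3 / 4 * W / 6400 := by
        rw [div_le_iff₀ hh0]
        have h2 := hes.trans hsW
        have h3 : 3 / 4 * (W : ℝ) / 6400 * h = 3 / 4 * (h * W / 6400) := by ring
        rw [h3]
        linarith
      linarith
    have hs4 : s / (32 * h) ≤ W / 1000 := by
      rw [div_le_iff₀ (by positivity)]
      have h1 : s ≤ h * W / 6400 + 3 / 4 * W / 6400 := by linarith
      have h2 : (W : ℝ) ≤ h * W := by nlinarith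
      nlinarith
    have hX : ∀ f, d ≤ f → 0 ≤ XX K f ∧ Λ f ≤ XX K f / 2 ∧ 128 * h * ((f : ℝ) + 2) ≤ XX K f := by
      intro f hf
      obtain ⟨l1, l2, -, -⟩ := hΛ f hf
      have h0 : (0 : ℝ) ≤ f := Nat.cast_nonneg f
      rw [le_div_iff₀ (by positivity)] at l2
      have h3 : 0 ≤ Λ f * (64 * h) := by positivity
      have h4 : 0 ≤ 2 * ((f : ℝ) + 2) * (64 * h) := by positivity
      have h5 : Λ f ≤ Λ f * (32 * h) := by nlinarith
      refine ⟨by nlinarith, by nlinarith, by nlinarith⟩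
    have hTri : Tri3 d K F s e (s / (32 * h)) := by
      refine hLeaf K F s e (s / (32 * h)) Λ (fun f hf => (hΛ f hf).1) ?_ ?_ ?_ ?_
      · intro f hf hfs
        have h1 := (hΛ f hf).2.2.1.2 (L'.map fun x => (x.1, x.2.1)) (by
          intro y hy
          obtain ⟨x, hx, rfl⟩ := List.mem_map.1 hy
          obtain ⟨i1, i2, i3, i4, i5, i6⟩ := hIw x hx
          exact ⟨i1, i3, i4⟩) (by
          rw [List.map_map]
          exact hfs)
        rw [List.map_map] at h1
        have h2 : (L'.map (Prod.fst ∘ fun x : Multiset ℕ × ℝ × ℝ => (x.1, x.2.1))).sum = F := hM'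
        rw [h2] at h1
        exact h1
      · intro hfe
        have h1 := (hΛ d le_rfl).2.2.2 (L'.map fun x => (x.1, x.2.2)) (by
          intro y hy
          obtain ⟨x, hx, rfl⟩ := List.mem_map.1 hy
          obtain ⟨i1, i2, i3, i4, i5, i6⟩ := hIw x hx
          exact ⟨i2, i5, i6⟩) (by
          rw [List.map_map]
          exact hfe)
        rw [List.map_map] at h1
        have h2 : (L'.map (Prod.fst ∘ fun x : Multiset ℕ × ℝ × ℝ => (x.1, x.2.2))).sum = F := hM'
        rw [h2] at h1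
        exact h1
      · intro f hf hfs
        obtain ⟨x1, x2, x3⟩ := hX f hf
        refine (hΛ f hf).2.1.trans ?_
        rw [div_le_div_iff₀ (by positivity) (by positivity)]
        nlinarith
      · obtain ⟨n, hn⟩ := exists_nat_ge s
        refine ⟨d + 1 + n, by omega, ?_⟩
        obtain ⟨x1, x2, x3⟩ := hX (d + 1 + n) (by omega)
        have h1 : (n : ℝ) ≤ ((d + 1 + n : ℕ) : ℝ) := by
          push_cast
          have h2 : (0 : ℝ) ≤ d := Nat.cast_nonneg d
          linarith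
        have h3 : (0 : ℝ) ≤ ((d + 1 + n : ℕ) : ℝ) := Nat.cast_nonneg _
        have h4 : ((d + 1 + n : ℕ) : ℝ) ≤ 64 * h * (((d + 1 + n : ℕ) : ℝ) + 2) := by nlinarith
        linarith
    have hfin := hNum (d := d) K F (∑ k ∈ J, w k) (∑ k ∈ J, ∑ v ∈ V k, g0 k v)
      (∑ k ∈ J, ∑ v ∈ V k, g1 k v) W s e (s / (32 * h)) (by rw [← hwsum]; exact hcd) hgain hTri
      (by linarith) (by rw [hE']; linarith)
    exact hfin)
  have h1 : ∑ k ∈ J, ∑ v ∈ V k, Multiset.replicate (256 * N k v) v +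
      (K + ∑ k ∈ J, ((R k).map fun x => Multiset.replicate x.1 x.2).sum) = K + ∑ k ∈ J, w k := by
    rw [add_left_comm, ← hwsum]
    congr 1
    exact (leaf_eq J V (fun k v => 256 * N k v) (fun _ v => v) R).symm
  rw [h1] at key
  exact key

end Pool.Agent.Q162.GR
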