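import Pool.Agent.Q162.GR.Data

/-! # Project GR: job PUREC -/

set_option autoImplicit false

namespace Pool.Agent.Q162.GR

open Finset Pool.Agent Pool.Agent.TH176.Nag Pool.Agent.TH603.Sur Pool.Agent.TH2.NU
open Pool.Agent.TH641.UM Pool.Agent.Y205.FW Pool.Agent.Y205.MD Pool.Agent.H200W Pool.Agent.H200P
open Pool.Agent.H200C Pool.Agent.H200G

/-- **Job PUREC.** -/
theorem pureC : S_PureC := by
  intro hSlab hTrW hUnits hLeaf hNum hAcc hColor hColNum d J w hJ hw
  obtain ⟨V, N, R, hV⟩ := colors hColor J w hw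
  have hwsum : ∑ k ∈ J, lf (V k) (fun v => 256 * N k v) (fun v => v) (R k) = ∑ k ∈ J, w k :=
    Finset.sum_congr rfl fun k hk => (hV k hk).2.1
  have key := hAcc (S := HX 0 0 0 d) HX_nonneg J V N
    ((HX 0 0 0 d).card - TH2.NU.condM (∑ k ∈ J, w k))
    (∑ k ∈ J, ((R k).map fun x => Multiset.replicate x.1 x.2).sum) (by
    intro a g0 g1 hl
    obtain ⟨L, hIt, hM, hE1, hs1, he1, hes, hs2, hsq, hW1, hcd, hgain⟩ :=
      data hUnits hColNum (fun k hk => (hV k hk).1) hl
    rw [← leaf_eq]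
    set F := ∑ k ∈ J, lf (V k) (N k) (a k) (R k) with hF
    have hFM : ∑ k ∈ J, tM (L k) = F := Finset.sum_congr rfl fun k hk => hM k hk
    obtain ⟨hTS, hTE⟩ := hSlab J L (fun k hk x hx => by
      obtain ⟨i1, i2, i3, i4, i5, i6⟩ := hIt k hk x hx
      exact ⟨i1, i2, i3, i5⟩) hE1
    have hTE := hTE hJ
    rw [hFM] at hTS hTE
    set s := ∑ k ∈ J, tS (L k) with hs
    set e := ∑ k ∈ J, tE (L k) with he
    set W := ∑ k ∈ J, WW (V k) (N k) with hW
    have hWR : (W : ℝ) = ∑ k ∈ J, (WW (V k) (N k) : ℝ) := by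
      rw [hW]
      push_cast
      rfl
    have het : ∀ k, 256 ≤ et k := by
      intro k
      unfold et
      have h1 : (1 : ℝ) ≤ 2 ^ k := one_le_pow₀ (by norm_num)
      linarith
    obtain ⟨k0, hk0⟩ := hJ
    have hWk0 : (WW (V k0) (N k0) : ℝ) ≤ W := by
      rw [hWR]
      exact Finset.single_le_sum (f := fun k => (WW (V k) (N k) : ℝ))
        (fun k _ => Nat.cast_nonneg _) hk0
    have hWbig : 1000000 ≤ (W : ℝ) := by
      have h1 := hW1 k0 hk0
      have h2 := het k0
      linarith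
    have he1' : 1 ≤ e := by
      have h1 : 1024 * et k0 ^ 2 ≤ tE (L k0) := hE1 k0 hk0
      have h2 : tE (L k0) ≤ e := by
        rw [he]
        refine Finset.single_le_sum (f := fun k => tE (L k)) (fun k hk => ?_) hk0
        refine le_trans ?_ (hE1 k hk)
        positivity
      have h3 := het k0
      nlinarith
    have hsW : s ≤ ((W : ℝ) / 3200) ^ 2 := by
      refine hs2.trans ?_
      have h1 : ∀ k ∈ J, et k * (WW (V k) (N k) : ℝ) / 100 ≤
          (W : ℝ) * (WW (V k) (N k) : ℝ) / 10240000 := by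
        intro k hk
        have h2 := hW1 k hk
        have h3 : (WW (V k) (N k) : ℝ) ≤ W := by
          rw [hWR]
          exact Finset.single_le_sum (f := fun k => (WW (V k) (N k) : ℝ))
            (fun k _ => Nat.cast_nonneg _) hk
        have h4 : (0 : ℝ) ≤ (WW (V k) (N k) : ℝ) := Nat.cast_nonneg _
        have h5 : et k * (WW (V k) (N k) : ℝ) ≤ ((W : ℝ) / 102400) * (WW (V k) (N k) : ℝ) :=
          mul_le_mul_of_nonneg_right (by linarith) h4
        linarith
      refine (Finset.sum_le_sum h1).trans ?_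
      rw [← Finset.sum_div, ← Finset.mul_sum, ← hWR]
      apply le_of_eq
      ring
    have hTri : Tri3 d 0 F s e ((W : ℝ) / 500) := by
      refine hLeaf 0 F s e ((W : ℝ) / 500) (fun _ => 0) (fun f _ => le_rfl) ?_ ?_ ?_ ?_
      · intro f _ hf
        rw [XX_zero, sub_zero] at hf
        rw [zero_add]
        refine (hTrW (M := F) (s := s) (e := e) (d := f)).1 hTS ?_
        have h1 : (0 : ℝ) ≤ f := Nat.cast_nonneg f
        nlinarith
      · intro hf
        rw [XX_zero, add_zero] at hf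
        rw [zero_add]
        refine (hTrW (M := F) (s := s) (e := e) (d := d)).2 hTE ?_ he1'
        have h1 : (0 : ℝ) ≤ d := Nat.cast_nonneg d
        nlinarith
      · intro f _ hf
        rw [XX_zero, sub_zero] at hf
        have h1 : (0 : ℝ) ≤ f := Nat.cast_nonneg f
        have h2 : ((f : ℝ) + 1) ^ 2 < ((W : ℝ) / 3200) ^ 2 := by nlinarith
        have h3 : (f : ℝ) + 1 < (W : ℝ) / 3200 := lt_of_pow_lt_pow_left₀ 2 (by positivity) h2
        linarith
      · obtain ⟨n, hn⟩ := exists_nat_ge s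
        refine ⟨d + 1 + n, by omega, ?_⟩
        rw [XX_zero, sub_zero]
        push_cast
        have h1 : (0 : ℝ) ≤ n := Nat.cast_nonneg n
        have h2 : (0 : ℝ) ≤ d := Nat.cast_nonneg d
        nlinarith
    have hfin := hNum (d := d) 0 F (∑ k ∈ J, w k) (∑ k ∈ J, ∑ v ∈ V k, g0 k v)
      (∑ k ∈ J, ∑ v ∈ V k, g1 k v) W s e ((W : ℝ) / 500) (by rw [← hwsum]; exact hcd) hgain hTri
      (by linarith) (by linarith)
    rw [zero_add, zero_add] at hfin
    exact hfin)
  have h1 : ∑ k ∈ J, ∑ v ∈ V k, Multiset.replicate (256 * N k v) v +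
      ∑ k ∈ J, ((R k).map fun x => Multiset.replicate x.1 x.2).sum = ∑ k ∈ J, w k := by
    rw [← hwsum]
    exact (leaf_eq J V (fun k v => 256 * N k v) (fun _ v => v) R).symm
  rw [h1] at key
  exact key

end Pool.Agent.Q162.GR
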