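import Pool.Agent.Q162.GR.StepS

/-! # Project GR: job STEPE (one more slab, emptiness) -/

set_option autoImplicit false

namespace Pool.Agent.Q162.GR

open Finset Pool.Agent Pool.Agent.TH176.Nag Pool.Agent.TH603.Sur Pool.Agent.TH2.NU
open Pool.Agent.TH641.UM Pool.Agent.Y205.FW Pool.Agent.Y205.MD Pool.Agent.H200W Pool.Agent.H200P
open Pool.Agent.H200G

/-- **Job STEPE.** -/
theorem stepE : S_StepE := by
  intro R η nA Y A L hR hη hA hL hY hRn hLn ρ b hρ hρR hb hn
  set nG := (L.map Prod.snd).sum with hnG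
  have hnGpos : 0 < nG := by
    refine lt_of_lt_of_le ?_ hLn
    positivity
  have hnA : 0 ≤ nA := by
    rcases hA with h | h
    · rw [h.2]
    · exact h.1.le
  have hρ0 : 0 < ρ := by linarith
  set n := nA + nG with hndef
  have hn0 : 0 < n := by positivity
  set b0 := √(ρ * n) with hb0
  have hb0s : b0 ^ 2 = ρ * n := Real.sq_sqrt (by positivity)
  have hb0pos : 0 < b0 := Real.sqrt_pos.2 (by positivity)
  have hbb : b ^ 2 ≤ ρ * n := by
    rw [div_le_iff₀ hρ0] at hn
    linarith
  have hbb0 : b ≤ b0 := by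
    by_contra h
    push Not at h
    nlinarith
  have hb0Y : b0 ≤ Y := by
    by_contra h
    push Not at h
    have h1 : ρ * n ≤ R * n := mul_le_mul_of_nonneg_right hρR hn0.le
    nlinarith
  have hLu : ∀ x ∈ L, UnitE η x.1 x.2 ∧ 0 ≤ x.2 ∧ x.2 ≤ nG := fun x hx =>
    ⟨(hL x hx).1, (hL x hx).2, le_sum_of_mem (fun x hx => (hL x hx).2) hx⟩
  suffices h : EmpM (A + (L.map Prod.fst).sum) (RC b0 ρ) by
    refine EmpM.mono_set h ?_
    rintro ⟨x, y⟩ ⟨h1, h2, h3⟩
    exact ⟨h1, h2, h3.trans hbb0⟩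
  rcases hA with ⟨hA0, hnA0⟩ | ⟨hnApos, hAE⟩
  · rw [hA0, zero_add]
    have hρnG : ρ * nG = b0 ^ 2 := by
      rw [hb0s, hndef, hnA0, zero_add]
    have h1 : 2 * ρ * η < b0 := by
      have h2 : ρ * ((4 * η + 1) * (3 + 2 * Y)) ≤ ρ * nG := mul_le_mul_of_nonneg_left hLn hρ0.le
      have h3 : ρ * (4 * η * (2 * b0)) ≤ ρ * ((4 * η + 1) * (3 + 2 * Y)) := by
        refine mul_le_mul_of_nonneg_left ?_ hρ0.le
        nlinarith
      have h4 : 8 * ρ * η * b0 ≤ b0 * b0 := by nlinarith
      have h5 : 8 * ρ * η ≤ b0 := le_of_mul_le_mul_right h4 hb0pos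
      have h6 : 0 < ρ * η := by positivity
      nlinarith
    have h2 := p_rtE (h := η) (u := nG) (b := b0) (ρ := ρ) (by linarith) hρ h1
    refine h2 L hLu ?_
    have h3 : b0 ^ 2 / ρ = nG := by
      rw [← hρnG]
      field_simp
    rw [h3]
  · set b' := √(ρ * nA) with hb'
    have hb's : b' ^ 2 = ρ * nA := Real.sq_sqrt (by positivity)
    have hb'pos : 0 < b' := Real.sqrt_pos.2 (by positivity)
    set t := (b0 - b') / ρ with ht
    have hρt : ρ * t = b0 - b' := by
      rw [ht]
      field_simp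
    have htG : t * (b0 + b') = nG := by
      have h1 : ρ * (t * (b0 + b')) = ρ * nG := by
        rw [← mul_assoc, hρt]
        have h2 : ρ * n = ρ * nA + ρ * nG := by rw [hndef]; ring
        nlinarith
      exact mul_left_cancel₀ hρ0.ne' h1
    have hb'0 : b' ≤ b0 := by
      by_contra h
      push Not at h
      have h1 : ρ * nA ≤ ρ * n := mul_le_mul_of_nonneg_left (by rw [hndef]; linarith) hρ0.le
      nlinarith
    have ht0 : 0 ≤ t := div_nonneg (by linarith) hρ0.le
    have htη : 4 * η + 1 ≤ t := by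
      have h1 : (4 * η + 1) * (3 + 2 * Y) ≤ t * (3 + 2 * Y) := by
        refine hLn.trans ?_
        rw [← htG]
        refine mul_le_mul_of_nonneg_left ?_ ht0
        linarith
      exact le_of_mul_le_mul_right h1 (by linarith)
    have htpos : 0 < t := by linarith
    have hb0t : 2 * t ≤ b0 := by
      have h1 : 2 * t ≤ ρ * t := mul_le_mul_of_nonneg_right hρ ht0
      rw [hρt] at h1
      linarith
    -- the slab
    have hS1 : EmpM (L.map Prod.fst).sum (TC b0 ρ t) := by
      refine Q274.WR.trapE p_nodeE p_ktrapE htpos hρ (by rw [hρt]; linarith) ?_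
      set σ := 4 * (2 * b0 - ρ * t) / t with hσ
      have hσt : σ * t = 4 * (b0 + b') := by
        rw [hσ, hρt]
        field_simp
        ring
      have hσ8 : 8 ≤ σ := by
        have h1 : 8 * t ≤ σ * t := by
          rw [hσt]
          linarith
        exact le_of_mul_le_mul_right h1 htpos
      have h2 := p_rtE (h := η) (u := nG) (b := σ * (t / 2)) (ρ := σ) (by linarith) (by linarith)
        (by
          have h3 : σ * (4 * η + 1) ≤ σ * t := mul_le_mul_of_nonneg_left htη (by linarith)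
          nlinarith)
      refine h2 L hLu ?_
      have h4 : (σ * (t / 2)) ^ 2 / σ = nG := by
        have hσ0 : σ ≠ 0 := by
          intro h
          rw [h] at hσ8
          norm_num at hσ8
        have h5 : (σ * (t / 2)) ^ 2 / σ = σ * t * t / 4 := by
          field_simp
          ring
        rw [h5, hσt, ← htG]
        ring
      rw [h4]
    -- the rest
    have hS2 : EmpM A {p : ℤ × ℤ | 0 ≤ p.1 ∧ t ≤ p.2 ∧ (p.1 : ℝ) + ρ * p.2 ≤ b0} := by
      classical
      refine p_colE (fun _ => t) (fun x => if 0 ≤ x then (b' - x) / ρ else -1) ?_ ?_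
      · rintro x y ⟨h1, h2, h3⟩
        have h1' : 0 ≤ x := h1
        have h3' : (x : ℝ) + ρ * y ≤ b0 := h3
        rw [if_pos h1']
        refine ⟨h2, ?_⟩
        have h4 : (y : ℝ) - t ≤ (b' - x) / ρ := by
          rw [le_div_iff₀ hρ0]
          nlinarith
        linarith
      · refine EmpM.mono_set (hAE ρ b' hρ hρR hb'pos ?_) ?_
        · rw [hb's]
          field_simp
          exact le_rfl
        · rintro ⟨x, y⟩ ⟨hy, hxy⟩
          have hy' : 0 ≤ y := hy
          have hyr : (0 : ℝ) ≤ y := by exact_mod_cast hy'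
          have hxy' : (y : ℝ) ≤ if 0 ≤ x then (b' - x) / ρ else -1 := hxy
          by_cases hx : 0 ≤ x
          · rw [if_pos hx, le_div_iff₀ hρ0] at hxy'
            refine ⟨hx, hy', ?_⟩
            change (x : ℝ) + ρ * y ≤ b'
            linarith
          · rw [if_neg hx] at hxy'
            exfalso
            linarith
    have hcut := p_cutE (S := RC b0 ρ) (S1 := TC b0 ρ t)
      (S2 := {p : ℤ × ℤ | 0 ≤ p.1 ∧ t ≤ p.2 ∧ (p.1 : ℝ) + ρ * p.2 ≤ b0}) 0 1 t
      (Q53.WR.RC_finite hρ0) (by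
        rintro ⟨x, y⟩ ⟨h1, h2, h3⟩
        rcases le_or_gt (y : ℝ) t with hyt | hyt
        · refine Or.inl ⟨⟨h1, h2, hyt, h3⟩, ?_⟩
          change 0 * (x : ℝ) + 1 * (y : ℝ) ≤ t
          linarith
        · refine Or.inr ⟨⟨h1, hyt.le, h3⟩, ?_⟩
          change t < 0 * (x : ℝ) + 1 * (y : ℝ)
          linarith) hS1 hS2
    rw [add_comm] at hcut
    exact hcut

end Pool.Agent.Q162.GR
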