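import Pool.Agent.H200G.Stm2
import Pool.Agent.Q111.WR.Num

/-! # Project GR: the data of the leaves of all groups -/

set_option autoImplicit false

namespace Pool.Agent.Q162.GR

open Finset Pool.Agent Pool.Agent.TH176.Nag Pool.Agent.TH603.Sur Pool.Agent.TH2.NU
open Pool.Agent.TH641.UM Pool.Agent.Y205.FW Pool.Agent.Y205.MD Pool.Agent.H200W Pool.Agent.H200P
open Pool.Agent.H200C Pool.Agent.H200G

theorem tE_le_tS {h : ℝ} {l : List (Multiset ℕ × ℝ × ℝ)} (hl : ∀ x ∈ l, It h x) : tE l ≤ tS l := by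
  unfold tE tS
  exact List.sum_le_sum fun x hx => (hl x hx).2.2.2.2.1

/-- the classes of all groups -/
theorem colors (hColor : Color) (J : Finset ℕ) (w : ℕ → Multiset ℕ) (hw : ∀ k ∈ J, Grp k (w k)) :
    ∃ (V : ℕ → Finset ℕ) (N : ℕ → ℕ → ℕ) (R : ℕ → List (ℕ × ℕ)), ∀ k ∈ J,
      Col k (V k) (N k) (R k) ∧ lf (V k) (fun v => 256 * N k v) (fun v => v) (R k) = w k ∧
      99 / 100 * ((w k).map fun v : ℕ => (v : ℝ) ^ 2).sum ≤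
        ∑ v ∈ V k, (256 * N k v : ℝ) * (v : ℝ) ^ 2 := by
  have h1 : ∀ k, ∃ (V : Finset ℕ) (N : ℕ → ℕ) (R : List (ℕ × ℕ)), k ∈ J →
      Col k V N R ∧ lf V (fun v => 256 * N v) (fun v => v) R = w k ∧
      99 / 100 * ((w k).map fun v : ℕ => (v : ℝ) ^ 2).sum ≤
        ∑ v ∈ V, (256 * N v : ℝ) * (v : ℝ) ^ 2 := by
    intro k
    by_cases hk : k ∈ J
    · obtain ⟨V, N, R, h⟩ := hColor k (w k) (hw k hk)
      exact ⟨V, N, R, fun _ => h⟩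
    · exact ⟨∅, fun _ => 0, [], fun h => absurd h hk⟩
  choose V N R h using h1
  exact ⟨V, N, R, h⟩

/-- the lists of items of all groups and their numbers -/
theorem data (hUnits : UnitsR) (hColNum : ColNum) {J : Finset ℕ} {V : ℕ → Finset ℕ}
    {N : ℕ → ℕ → ℕ} {R : ℕ → List (ℕ × ℕ)} (hC : ∀ k ∈ J, Col k (V k) (N k) (R k))
    {a g0 g1 : ℕ → ℕ → ℕ}
    (hl : ∀ k ∈ J, ∀ v ∈ V k, Leaf 4 (N k v) v (a k v) (g0 k v) (g1 k v)) :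
    ∃ L : ℕ → List (Multiset ℕ × ℝ × ℝ), (∀ k ∈ J, ∀ x ∈ L k, It (et k) x) ∧
      (∀ k ∈ J, tM (L k) = lf (V k) (N k) (a k) (R k)) ∧
      (∀ k ∈ J, 1024 * et k ^ 2 ≤ tE (L k)) ∧
      (∑ k ∈ J, tS (L k) - 2 * (TH2.NU.condM (∑ k ∈ J, lf (V k) (N k) (a k) (R k)) : ℝ) ≤
        24 / 125 * ((∑ k ∈ J, WW (V k) (N k) : ℕ) : ℝ)) ∧
      (2 * (TH2.NU.condM (∑ k ∈ J, lf (V k) (N k) (a k) (R k)) : ℝ) - ∑ k ∈ J, tE (L k) ≤
        24 / 125 * ((∑ k ∈ J, WW (V k) (N k) : ℕ) : ℝ)) ∧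
      ∑ k ∈ J, tE (L k) ≤ ∑ k ∈ J, tS (L k) ∧
      ∑ k ∈ J, tS (L k) ≤ ∑ k ∈ J, et k * (WW (V k) (N k) : ℝ) / 100 ∧
      9 / 10 * ∑ k ∈ J, ∑ v ∈ V k, (256 * N k v : ℝ) * (v : ℝ) ^ 2 ≤ ∑ k ∈ J, tE (L k) ∧
      (∀ k ∈ J, 102400 * et k ≤ (WW (V k) (N k) : ℝ)) ∧
      TH2.NU.condM (∑ k ∈ J, lf (V k) (N k) (a k) (R k)) + ∑ k ∈ J, ∑ v ∈ V k, g0 k v =
        TH2.NU.condM (∑ k ∈ J, lf (V k) (fun v => 256 * N k v) (fun v => v) (R k)) +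
          ∑ k ∈ J, ∑ v ∈ V k, g1 k v ∧
      15 * ∑ k ∈ J, WW (V k) (N k) ≤
        32 * (∑ k ∈ J, ∑ v ∈ V k, g0 k v + ∑ k ∈ J, ∑ v ∈ V k, g1 k v) := by
  have h1 : ∀ k, ∃ L : List (Multiset ℕ × ℝ × ℝ), k ∈ J → (∀ x ∈ L, It (et k) x) ∧
      tM L = lf (V k) (N k) (a k) (R k) ∧
      tS L ≤ 2 * (TH2.NU.condM (lf (V k) (N k) (a k) (R k)) : ℝ) + E0 (V k) (N k) (a k) (R k) ∧
      2 * (TH2.NU.condM (lf (V k) (N k) (a k) (R k)) : ℝ) - E0 (V k) (N k) (a k) (R k) ≤ tE L ∧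
      9 / 10 * ∑ v ∈ V k, (N k v : ℝ) * (a k v : ℝ) ^ 2 ≤ tE L := by
    intro k
    by_cases hk : k ∈ J
    · obtain ⟨c1, c2, c3, c4, -⟩ := hColNum (hC k hk) (a k) (g0 k) (g1 k) (hl k hk)
      obtain ⟨L, hL⟩ := hUnits (V k) (N k) (a k) (R k) c1 c2 c3 c4
      exact ⟨L, fun _ => hL⟩
    · exact ⟨[], fun h => absurd h hk⟩
  choose L hL using h1
  have hcond : ∀ (F : ℕ → Multiset ℕ), TH2.NU.condM (∑ k ∈ J, F k) =
      ∑ k ∈ J, TH2.NU.condM (F k) := fun F => Q111.WR.condM_sum J F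
  refine ⟨L, fun k hk => (hL k hk).1, fun k hk => (hL k hk).2.1, fun k hk => ?_, ?_, ?_, ?_, ?_,
    ?_, fun k hk => ?_, ?_, ?_⟩
  · obtain ⟨c1, c2, c3, c4, c5, c6, c7, c8, c9, c10, c11⟩ :=
      hColNum (hC k hk) (a k) (g0 k) (g1 k) (hl k hk)
    exact c6.trans (hL k hk).2.2.2.2
  · rw [hcond]
    push_cast
    rw [Finset.mul_sum, Finset.mul_sum, ← Finset.sum_sub_distrib]
    refine Finset.sum_le_sum fun k hk => ?_
    obtain ⟨c1, c2, c3, c4, c5, c6, c7, c8, c9, c10, c11⟩ :=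
      hColNum (hC k hk) (a k) (g0 k) (g1 k) (hl k hk)
    have h2 := (hL k hk).2.2.1
    linarith
  · rw [hcond]
    push_cast
    rw [Finset.mul_sum, Finset.mul_sum, ← Finset.sum_sub_distrib]
    refine Finset.sum_le_sum fun k hk => ?_
    obtain ⟨c1, c2, c3, c4, c5, c6, c7, c8, c9, c10, c11⟩ :=
      hColNum (hC k hk) (a k) (g0 k) (g1 k) (hl k hk)
    have h2 := (hL k hk).2.2.2.1
    linarith
  · exact Finset.sum_le_sum fun k hk => tE_le_tS (hL k hk).1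
  · refine Finset.sum_le_sum fun k hk => ?_
    obtain ⟨c1, c2, c3, c4, c5, c6, c7, c8, c9, c10, c11⟩ :=
      hColNum (hC k hk) (a k) (g0 k) (g1 k) (hl k hk)
    exact (hL k hk).2.2.1.trans c8
  · rw [Finset.mul_sum]
    refine Finset.sum_le_sum fun k hk => ?_
    obtain ⟨c1, c2, c3, c4, c5, c6, c7, c8, c9, c10, c11⟩ :=
      hColNum (hC k hk) (a k) (g0 k) (g1 k) (hl k hk)
    refine le_trans ?_ (hL k hk).2.2.2.2
    exact mul_le_mul_of_nonneg_left c5 (by norm_num)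
  · obtain ⟨c1, c2, c3, c4, c5, c6, c7, c8, c9, c10, c11⟩ :=
      hColNum (hC k hk) (a k) (g0 k) (g1 k) (hl k hk)
    exact c9
  · rw [hcond, hcond, ← Finset.sum_add_distrib, ← Finset.sum_add_distrib]
    refine Finset.sum_congr rfl fun k hk => ?_
    obtain ⟨c1, c2, c3, c4, c5, c6, c7, c8, c9, c10, c11⟩ :=
      hColNum (hC k hk) (a k) (g0 k) (g1 k) (hl k hk)
    exact c10
  · rw [← Finset.sum_add_distrib, Finset.mul_sum, Finset.mul_sum]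
    refine Finset.sum_le_sum fun k hk => ?_
    obtain ⟨c1, c2, c3, c4, c5, c6, c7, c8, c9, c10, c11⟩ :=
      hColNum (hC k hk) (a k) (g0 k) (g1 k) (hl k hk)
    exact c11

/-- a leaf of all groups -/
theorem leaf_eq (J : Finset ℕ) (V : ℕ → Finset ℕ) (N a : ℕ → ℕ → ℕ) (R : ℕ → List (ℕ × ℕ)) :
    ∑ k ∈ J, lf (V k) (N k) (a k) (R k) =
      ∑ k ∈ J, ∑ v ∈ V k, Multiset.replicate (N k v) (a k v) +
        ∑ k ∈ J, ((R k).map fun x => Multiset.replicate x.1 x.2).sum := by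
  rw [← Finset.sum_add_distrib]
  rfl

theorem HX_nonneg {f : ℕ} : ∀ u ∈ HX 0 0 0 f, 0 ≤ u.1 ∧ 0 ≤ u.2 := by
  intro u hu
  rw [HX, mem_filter, mem_product, mem_Icc, mem_Icc] at hu
  exact ⟨hu.1.1.1, hu.1.2.1⟩

theorem XX_zero (f : ℕ) : XX 0 f = ((f : ℝ) + 1) * (f + 2) := by
  have h1 : 2 * (HX 0 0 0 f).card + (0 * (0 + 1) + 0 * (0 + 1) + 0 * (0 + 1)) = (f + 1) * (f + 2) :=
    p_card (le_refl 0) (le_refl 0) (Nat.zero_le f)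
  have h2 : ((2 * (HX 0 0 0 f).card : ℕ) : ℝ) = (((f + 1) * (f + 2) : ℕ) : ℝ) := by
    have h3 : 2 * (HX 0 0 0 f).card = (f + 1) * (f + 2) := by omega
    rw [h3]
  unfold XX
  rw [Q111.WR.condM_zero]
  push_cast at h2 ⊢
  linarith

end Pool.Agent.Q162.GR
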