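import Pool.Agent.Q162.GR.PRD

/-! Project GR (helper269), job AVP: averages over the twists. -/

set_option autoImplicit false

open scoped Classical
open Finset Polynomial

namespace Pool.Agent.Q162.GR

open Pool.Agent.Q269.GR
open Pool.Agent.Y164.PS (L sg)
open Pool.Agent.H341R2.Sharp (Mon mem_Mon)

section

variable {k : Type} [Field k] [Fintype k]

lemma card_Mon_le (n : ℕ) : (Mon k n).card ≤ Fintype.card k ^ n := by
  have h1 : (Mon k n).card ≤ (univ : Finset (Fin n → k)).card := by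
    apply Finset.card_le_card_of_injOn (fun h : k[X] => fun i : Fin n => h.coeff i)
    · intro h _
      exact Finset.mem_coe.2 (Finset.mem_univ _)
    · intro g hg h hh hgh
      obtain ⟨hg1, hg2⟩ := mem_Mon.1 (Finset.mem_coe.1 hg)
      obtain ⟨hh1, hh2⟩ := mem_Mon.1 (Finset.mem_coe.1 hh)
      ext i
      rcases lt_trichotomy i n with hi | hi | hi
      · exact congrFun hgh ⟨i, hi⟩
      · have e1 : g.coeff i = 1 := by rw [hi, ← hg2]; exact hg1
        have e2 : h.coeff i = 1 := by rw [hi, ← hh2]; exact hh1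
        rw [e1, e2]
      · rw [coeff_eq_zero_of_natDegree_lt (by omega), coeff_eq_zero_of_natDegree_lt (by omega)]
  rwa [Finset.card_univ, Fintype.card_fun, Fintype.card_fin] at h1

lemma card_dvd_le (n : ℕ) (Q : k[X]) (hQ : Q.Monic) :
    ((Mon k n).filter (Q ∣ ·)).card * Fintype.card k ^ Q.natDegree ≤ Fintype.card k ^ n := by
  rcases Nat.lt_or_ge n Q.natDegree with h | h
  · have h1 : (Mon k n).filter (Q ∣ ·) = ∅ := by
      rw [Finset.filter_eq_empty_iff]
      intro D hD hd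
      obtain ⟨h2, h3⟩ := mem_Mon.1 hD
      have := natDegree_le_of_dvd hd h2.ne_zero
      omega
    rw [h1, Finset.card_empty, zero_mul]
    exact Nat.zero_le _
  · have h1 : ((Mon k n).filter (Q ∣ ·)).card ≤ (Mon k (n - Q.natDegree)).card := by
      apply Finset.card_le_card_of_injOn (fun D => D /ₘ Q)
      · intro D hD
        obtain ⟨hD1, hD2⟩ := Finset.mem_filter.1 (Finset.mem_coe.1 hD)
        obtain ⟨h2, h3⟩ := mem_Mon.1 hD1
        obtain ⟨E, rfl⟩ := hD2
        rw [Finset.mem_coe]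
        show (Q * E) /ₘ Q ∈ _
        rw [mul_divByMonic_cancel_left _ hQ, mem_Mon]
        have hE : E.Monic := hQ.of_mul_monic_left h2
        refine ⟨hE, ?_⟩
        rw [hQ.natDegree_mul hE] at h3
        omega
      · intro D hD D' hD' he
        obtain ⟨-, hD2⟩ := Finset.mem_filter.1 (Finset.mem_coe.1 hD)
        obtain ⟨-, hD2'⟩ := Finset.mem_filter.1 (Finset.mem_coe.1 hD')
        obtain ⟨E, rfl⟩ := hD2
        obtain ⟨E', rfl⟩ := hD2'
        have he' : (Q * E) /ₘ Q = (Q * E') /ₘ Q := he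
        rw [mul_divByMonic_cancel_left _ hQ, mul_divByMonic_cancel_left _ hQ] at he'
        rw [he']
    calc ((Mon k n).filter (Q ∣ ·)).card * Fintype.card k ^ Q.natDegree ≤
          Fintype.card k ^ (n - Q.natDegree) * Fintype.card k ^ Q.natDegree :=
          Nat.mul_le_mul_right _ (h1.trans (card_Mon_le _))
      _ = _ := by rw [← pow_add]; congr 1; omega

lemma card_dvd_real (hk : 5 ≤ Fintype.card k) (n : ℕ) (Q : k[X]) (hQ : Q.Monic) :
    (((Mon k n).filter (Q ∣ ·)).card : ℝ) ≤ (Fintype.card k : ℝ) ^ n /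
      (Fintype.card k : ℝ) ^ Q.natDegree := by
  have hq : (0 : ℝ) < Fintype.card k := by exact_mod_cast (by omega : 0 < Fintype.card k)
  rw [le_div_iff₀ (by positivity)]
  exact_mod_cast card_dvd_le n Q hQ

lemma Dn_sub (Δ : k[X]) (n : ℕ) : Dn Δ n ⊆ Mon k n := Finset.filter_subset _ _

lemma card_Irn_le (h : S_IRC) (hk : 5 ≤ Fintype.card k) {d : ℕ} (hd : 0 < d) :
    ((Irn k d).card : ℝ) / (Fintype.card k : ℝ) ^ d ≤ 1 / d := by
  have hq : (0 : ℝ) < Fintype.card k := by exact_mod_cast (by omega : 0 < Fintype.card k)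
  have h1 := (h k hk d hd).1
  have hd0 : (0 : ℝ) < d := by exact_mod_cast hd
  rw [div_le_div_iff₀ (by positivity) hd0]
  linarith

end

theorem t_AVP (h1 : S_IRC) (_h2 : S_PRD) : S_AVP := by
  intro k _ _ hk Δ hΔ n hn
  have hq : (0 : ℝ) < Fintype.card k := by exact_mod_cast (by omega : 0 < Fintype.card k)
  refine ⟨?_, ?_, ?_⟩
  · exact_mod_cast (Finset.card_le_card (Dn_sub Δ n)).trans (card_Mon_le n)
  · intro W
    have hsub : ∀ D ∈ Dn Δ n, (pr D).filter (fun P => W P.natDegree) ⊆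
        ((Icc 1 n).filter W).biUnion (fun d => (Irn k d).filter (· ∣ D)) := by
      intro D hD P hP
      obtain ⟨hD1, hD2, -, -⟩ := mem_Dn.1 hD
      obtain ⟨hP1, hP2⟩ := Finset.mem_filter.1 hP
      obtain ⟨hP3, hP4, hP5⟩ := (mem_pr hD1.ne_zero P).1 hP1
      rw [Finset.mem_biUnion]
      refine ⟨P.natDegree, ?_, ?_⟩
      · rw [Finset.mem_filter, Finset.mem_Icc]
        refine ⟨⟨hP4.natDegree_pos, ?_⟩, hP2⟩
        rw [← hD2]
        exact natDegree_le_of_dvd hP5 hD1.ne_zero
      · rw [Finset.mem_filter, mem_Irn]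
        exact ⟨⟨hP3, rfl, hP4⟩, hP5⟩
    have h3 : ∑ D ∈ Dn Δ n, (((pr D).filter fun P => W P.natDegree).card : ℝ) ≤
        ∑ D ∈ Dn Δ n, ∑ d ∈ (Icc 1 n).filter W, ∑ P ∈ Irn k d, (if P ∣ D then (1 : ℝ) else 0) := by
      refine Finset.sum_le_sum fun D hD => ?_
      have h4 := (Finset.card_le_card (hsub D hD)).trans Finset.card_biUnion_le
      calc (((pr D).filter fun P => W P.natDegree).card : ℝ) ≤
            ((∑ d ∈ (Icc 1 n).filter W, ((Irn k d).filter (· ∣ D)).card : ℕ) : ℝ) := by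
            exact_mod_cast h4
        _ = _ := by
            push_cast
            refine Finset.sum_congr rfl fun d _ => ?_
            rw [Finset.sum_boole]
    rw [Finset.sum_comm] at h3
    refine h3.trans ?_
    rw [Finset.mul_sum]
    refine Finset.sum_le_sum fun d hd => ?_
    have hd1 : 0 < d := (Finset.mem_Icc.1 (Finset.mem_filter.1 hd).1).1
    rw [Finset.sum_comm]
    calc ∑ P ∈ Irn k d, ∑ D ∈ Dn Δ n, (if P ∣ D then (1 : ℝ) else 0) ≤
          ∑ _P ∈ Irn k d, (Fintype.card k : ℝ) ^ n / (Fintype.card k : ℝ) ^ d := by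
          refine Finset.sum_le_sum fun P hP => ?_
          obtain ⟨hP1, hP2, hP3⟩ := mem_Irn.1 hP
          rw [Finset.sum_boole]
          have h4 := card_dvd_real hk n P hP1
          rw [hP2] at h4
          refine le_trans ?_ h4
          exact_mod_cast Finset.card_le_card (Finset.filter_subset_filter _ (Dn_sub Δ n))
      _ = (Fintype.card k : ℝ) ^ n * (((Irn k d).card : ℝ) / (Fintype.card k : ℝ) ^ d) := by
          rw [Finset.sum_const, nsmul_eq_mul]
          ring
      _ ≤ _ := mul_le_mul_of_nonneg_left (card_Irn_le h1 hk hd1) (by positivity)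
  · intro z hz
    have hsub : ((Dn Δ n).filter fun D => ∃ P ∈ pr D, ∃ P' ∈ pr D, z < P.natDegree ∧
        P.natDegree = P'.natDegree ∧ P ≠ P') ⊆ (Ioc z n).biUnion (fun d =>
          (Irn k d ×ˢ Irn k d).biUnion (fun p => (Mon k n).filter (p.1 * p.2 ∣ ·))) := by
      intro D hD
      obtain ⟨hD0, P, hP, P', hP', hz', hdd, hne⟩ := Finset.mem_filter.1 hD
      obtain ⟨hD1, hD2, -, -⟩ := mem_Dn.1 hD0
      obtain ⟨hP3, hP4, hP5⟩ := (mem_pr hD1.ne_zero P).1 hP
      obtain ⟨hP3', hP4', hP5'⟩ := (mem_pr hD1.ne_zero P').1 hP'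
      rw [Finset.mem_biUnion]
      refine ⟨P.natDegree, ?_, ?_⟩
      · rw [Finset.mem_Ioc]
        refine ⟨hz', ?_⟩
        rw [← hD2]
        exact natDegree_le_of_dvd hP5 hD1.ne_zero
      · rw [Finset.mem_biUnion]
        refine ⟨(P, P'), ?_, ?_⟩
        · rw [Finset.mem_product, mem_Irn, mem_Irn]
          exact ⟨⟨hP3, rfl, hP4⟩, ⟨hP3', hdd.symm, hP4'⟩⟩
        · rw [Finset.mem_filter]
          refine ⟨Dn_sub Δ n hD0, ?_⟩
          refine IsCoprime.mul_dvd ?_ hP5 hP5'
          rw [not_dvd_cop hP4]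
          intro hd
          exact hne (eq_of_monic_of_associated hP3 hP3' (hP4.associated_of_dvd hP4' hd))
    have h3 := (Finset.card_le_card hsub).trans Finset.card_biUnion_le
    have h4 : ∀ d ∈ Ioc z n, (((Irn k d ×ˢ Irn k d).biUnion
        (fun p => (Mon k n).filter (p.1 * p.2 ∣ ·))).card : ℝ) ≤
        (Fintype.card k : ℝ) ^ n * ((d : ℝ) ^ 2)⁻¹ := by
      intro d hd
      have hd1 : 0 < d := by
        have := (Finset.mem_Ioc.1 hd).1
        omega
      calc (((Irn k d ×ˢ Irn k d).biUnion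
            (fun p => (Mon k n).filter (p.1 * p.2 ∣ ·))).card : ℝ) ≤
            ((∑ p ∈ Irn k d ×ˢ Irn k d, ((Mon k n).filter (p.1 * p.2 ∣ ·)).card : ℕ) : ℝ) := by
            exact_mod_cast Finset.card_biUnion_le
        _ = ∑ p ∈ Irn k d ×ˢ Irn k d, (((Mon k n).filter (p.1 * p.2 ∣ ·)).card : ℝ) := by
            push_cast
            rfl
        _ ≤ ∑ _p ∈ Irn k d ×ˢ Irn k d, (Fintype.card k : ℝ) ^ n /
              (Fintype.card k : ℝ) ^ (d + d) := by
            refine Finset.sum_le_sum fun p hp => ?_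
            obtain ⟨hp1, hp2⟩ := Finset.mem_product.1 hp
            obtain ⟨hP1, hP2, hP3⟩ := mem_Irn.1 hp1
            obtain ⟨hQ1, hQ2, hQ3⟩ := mem_Irn.1 hp2
            have h5 := card_dvd_real hk n (p.1 * p.2) (hP1.mul hQ1)
            rwa [hP1.natDegree_mul hQ1, hP2, hQ2] at h5
        _ = (Fintype.card k : ℝ) ^ n * ((((Irn k d).card : ℝ) / (Fintype.card k : ℝ) ^ d) *
              (((Irn k d).card : ℝ) / (Fintype.card k : ℝ) ^ d)) := by
            rw [Finset.sum_const, nsmul_eq_mul, Finset.card_product, pow_add]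
            push_cast
            field_simp
        _ ≤ (Fintype.card k : ℝ) ^ n * ((1 / d) * (1 / d)) := by
            apply mul_le_mul_of_nonneg_left _ (by positivity)
            exact mul_le_mul (card_Irn_le h1 hk hd1) (card_Irn_le h1 hk hd1) (by positivity)
              (by positivity)
        _ = _ := by
            congr 1
            rw [one_div, sq, mul_inv]
    have h5 : ∑ d ∈ Ioc z n, ((d : ℝ) ^ 2)⁻¹ ≤ 1 / z := by
      rcases Nat.lt_or_ge n z with h | h
      · rw [Finset.Ioc_eq_empty (by omega), Finset.sum_empty]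
        positivity
      · have h6 := sum_Ioc_inv_sq_le_sub (α := ℝ) (by omega : z ≠ 0) h
        have h7 : (0 : ℝ) ≤ (n : ℝ)⁻¹ := by positivity
        rw [one_div]
        linarith
    calc (((Dn Δ n).filter fun D => ∃ P ∈ pr D, ∃ P' ∈ pr D, z < P.natDegree ∧
          P.natDegree = P'.natDegree ∧ P ≠ P').card : ℝ) ≤
          ((∑ d ∈ Ioc z n, ((Irn k d ×ˢ Irn k d).biUnion
            (fun p => (Mon k n).filter (p.1 * p.2 ∣ ·))).card : ℕ) : ℝ) := by exact_mod_cast h3
      _ = ∑ d ∈ Ioc z n, (((Irn k d ×ˢ Irn k d).biUnion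
            (fun p => (Mon k n).filter (p.1 * p.2 ∣ ·))).card : ℝ) := by
          push_cast
          rfl
      _ ≤ ∑ d ∈ Ioc z n, (Fintype.card k : ℝ) ^ n * ((d : ℝ) ^ 2)⁻¹ := Finset.sum_le_sum h4
      _ = (Fintype.card k : ℝ) ^ n * ∑ d ∈ Ioc z n, ((d : ℝ) ^ 2)⁻¹ := by rw [Finset.mul_sum]
      _ ≤ (Fintype.card k : ℝ) ^ n * (1 / z) := mul_le_mul_of_nonneg_left h5 (by positivity)
      _ = _ := by ring

end Pool.Agent.Q162.GR
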