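import Pool.Agent.Q269.GR.StD

/-! Project GR (helper269), job ERA: the error term when the moving degrees are large. -/

set_option autoImplicit false

open scoped Classical
open Finset Polynomial

namespace Pool.Agent.Q162.GR

open Pool.Agent.Q269.GR
open Pool.Agent.Y164.PS (L sg)

lemma sq_mul_pow (d : ℕ) : (d + 2) ^ 2 * 2 ^ (d + 1) ≤ 5 ^ (d + 2) := by
  induction d with
  | zero => norm_num
  | succ d ih =>
    have h1 : 2 * (d + 3) ^ 2 ≤ 5 * (d + 2) ^ 2 := by
      have h2 : 2 * (d + 3) ^ 2 + (3 * d ^ 2 + 8 * d + 2) = 5 * (d + 2) ^ 2 := by ring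
      omega
    calc (d + 1 + 2) ^ 2 * 2 ^ (d + 1 + 1) = 2 * (d + 3) ^ 2 * 2 ^ (d + 1) := by ring
      _ ≤ 5 * (d + 2) ^ 2 * 2 ^ (d + 1) := Nat.mul_le_mul_right _ h1
      _ = 5 * ((d + 2) ^ 2 * 2 ^ (d + 1)) := by ring
      _ ≤ 5 * 5 ^ (d + 2) := Nat.mul_le_mul_left _ ih
      _ = _ := by ring

/-- `d 2^(z/2) ≤ √(5^d)` for `z < d` -/
lemma mul_pow_le {d z : ℕ} (h : z < d) : (d : ℝ) * 2 ^ (z / 2) ≤ Real.sqrt ((5 : ℝ) ^ d) := by
  apply Real.le_sqrt_of_sq_le
  have h1 : d ^ 2 * 2 ^ (d - 1) ≤ 5 ^ d := by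
    rcases Nat.lt_or_ge d 2 with h2 | h2
    · have : d = 1 := by omega
      rw [this]
      norm_num
    · obtain ⟨e, rfl⟩ : ∃ e, d = e + 2 := ⟨d - 2, by omega⟩
      exact sq_mul_pow e
  have h2 : (2 ^ (z / 2)) ^ 2 ≤ 2 ^ (d - 1) := by
    rw [← pow_mul]
    exact Nat.pow_le_pow_right (by norm_num) (by omega)
  have h3 : (d * 2 ^ (z / 2)) ^ 2 ≤ 5 ^ d := by
    rw [mul_pow]
    exact (Nat.mul_le_mul_left _ h2).trans h1
  exact_mod_cast h3

/-- the inverse of the number of irreducible polynomials -/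
lemma inv_irn (h : S_IRC) {k : Type} [Field k] [Fintype k] (hk : 5 ≤ Fintype.card k) {d : ℕ}
    (hd : 0 < d) : 1 / ((Irn k d).card : ℝ) ≤ 2 * d / (Fintype.card k : ℝ) ^ d := by
  have h1 := (h k hk d hd).2.1
  have hq : (0 : ℝ) < (Fintype.card k : ℝ) ^ d := by
    have : (0 : ℝ) < Fintype.card k := by exact_mod_cast (by omega : 0 < Fintype.card k)
    positivity
  have hI : (0 : ℝ) < (Irn k d).card := by
    rcases Nat.eq_zero_or_pos (Irn k d).card with h0 | h0
    · rw [h0] at h1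
      simp at h1
      linarith
    · exact_mod_cast h0
  rw [div_le_div_iff₀ hI hq]
  linarith

lemma gg_le {ι : Type} [LinearOrder ι] {N : ℕ} (hN : 0 < N) (d : ι → ℕ) (i j : ι) :
    gg N d i j ≤ N := Nat.le_of_dvd hN (Nat.gcd_dvd_left _ _)

theorem t_ERA (h : S_IRC) : S_ERA := by
  intro k _ _ hk Δ N m z P0 mv hN hC hz τ hτ
  unfold erT
  set q : ℝ := (Fintype.card k : ℝ) with hq
  have hq5 : (5 : ℝ) ≤ q := by rw [hq]; exact_mod_cast hk
  have hN1 : (1 : ℝ) ≤ N := by exact_mod_cast hN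
  have hterm : ∀ i j : Fin m, (if i < j ∧ i ∈ mv ∧ j ∈ mv then
      Real.sqrt (τ * 2 ^ (∑ l ∈ mv.filter (· ≤ i), gg N (dg P0) l j) *
        (2 * gg N (dg P0) i j / (Irn k (dg P0 i)).card +
          4 * gg N (dg P0) i j * dg P0 i / Real.sqrt (q ^ dg P0 j))) else 0) ≤
      Real.sqrt (τ * 2 ^ (N * m) * (8 * N) / 2 ^ (z / 2)) := by
    intro i j
    split_ifs with hij
    · obtain ⟨hlt, hi, hj⟩ := hij
      apply Real.sqrt_le_sqrt
      have hdi : z < dg P0 i := hz i hi
      have hdi0 : 0 < dg P0 i := by omega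
      have hdij : dg P0 i < dg P0 j := hC.mono i hi j hj hlt
      have hpow : (2 : ℝ) ^ (∑ l ∈ mv.filter (· ≤ i), gg N (dg P0) l j) ≤ 2 ^ (N * m) := by
        apply pow_le_pow_right₀ (by norm_num)
        calc ∑ l ∈ mv.filter (· ≤ i), gg N (dg P0) l j ≤ ∑ _l ∈ mv.filter (· ≤ i), N :=
              Finset.sum_le_sum fun l _ => gg_le hN _ _ _
          _ = (mv.filter (· ≤ i)).card * N := by rw [Finset.sum_const, smul_eq_mul]
          _ ≤ m * N := by
              apply Nat.mul_le_mul_right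
              exact (Finset.card_le_univ _).trans (by rw [Fintype.card_fin])
          _ = N * m := mul_comm _ _
      have hg : (gg N (dg P0) i j : ℝ) ≤ N := by exact_mod_cast gg_le hN _ _ _
      have hg0 : (0 : ℝ) ≤ gg N (dg P0) i j := Nat.cast_nonneg _
      set D : ℝ := (dg P0 i : ℝ) with hD
      have hD0 : 0 < D := by rw [hD]; exact_mod_cast hdi0
      have hsi : 0 < Real.sqrt (q ^ dg P0 i) := Real.sqrt_pos.2 (by positivity)
      have hsq : Real.sqrt (q ^ dg P0 i) ≤ q ^ dg P0 i := by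
        have h1 : 1 ≤ q ^ dg P0 i := one_le_pow₀ (by linarith)
        calc Real.sqrt (q ^ dg P0 i) ≤ Real.sqrt ((q ^ dg P0 i) ^ 2) :=
              Real.sqrt_le_sqrt (by nlinarith)
          _ = _ := Real.sqrt_sq (by positivity)
      have h1 : 2 * (gg N (dg P0) i j : ℝ) / (Irn k (dg P0 i)).card ≤
          4 * N * D / Real.sqrt (q ^ dg P0 i) := by
        have h2 := inv_irn h hk hdi0
        have h3 : 2 * (gg N (dg P0) i j : ℝ) / (Irn k (dg P0 i)).card =
            2 * (gg N (dg P0) i j : ℝ) * (1 / (Irn k (dg P0 i)).card) := by ring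
        rw [h3]
        calc 2 * (gg N (dg P0) i j : ℝ) * (1 / (Irn k (dg P0 i)).card) ≤
              2 * N * (2 * D / q ^ dg P0 i) := by
              apply mul_le_mul (by linarith) h2 (by positivity) (by positivity)
          _ = 4 * N * D / q ^ dg P0 i := by ring
          _ ≤ _ := div_le_div_of_nonneg_left (by positivity) hsi hsq
      have h2 : 4 * (gg N (dg P0) i j : ℝ) * D / Real.sqrt (q ^ dg P0 j) ≤
          4 * N * D / Real.sqrt (q ^ dg P0 i) := by
        have h3 : Real.sqrt (q ^ dg P0 i) ≤ Real.sqrt (q ^ dg P0 j) := by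
          apply Real.sqrt_le_sqrt
          exact pow_le_pow_right₀ (by linarith) hdij.le
        apply div_le_div₀ (by positivity) _ hsi h3
        have : (gg N (dg P0) i j : ℝ) * D ≤ N * D := mul_le_mul_of_nonneg_right hg hD0.le
        linarith
      have h3 : D / Real.sqrt (q ^ dg P0 i) ≤ 1 / 2 ^ (z / 2) := by
        rw [div_le_div_iff₀ hsi (by positivity)]
        have h4 := mul_pow_le hdi
        have h5 : Real.sqrt ((5 : ℝ) ^ dg P0 i) ≤ Real.sqrt (q ^ dg P0 i) :=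
          Real.sqrt_le_sqrt (pow_le_pow_left₀ (by norm_num) hq5 _)
        rw [← hD] at h4
        linarith
      have h4 : 2 * (gg N (dg P0) i j : ℝ) / (Irn k (dg P0 i)).card +
          4 * (gg N (dg P0) i j : ℝ) * D / Real.sqrt (q ^ dg P0 j) ≤ 8 * N / 2 ^ (z / 2) := by
        have h5 : 4 * N * D / Real.sqrt (q ^ dg P0 i) = 4 * N * (D / Real.sqrt (q ^ dg P0 i)) := by
          ring
        have h6 : 4 * (N : ℝ) * (D / Real.sqrt (q ^ dg P0 i)) ≤ 4 * N * (1 / 2 ^ (z / 2)) :=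
          mul_le_mul_of_nonneg_left h3 (by positivity)
        have h7 : (8 : ℝ) * N / 2 ^ (z / 2) = 4 * N * (1 / 2 ^ (z / 2)) + 4 * N * (1 / 2 ^ (z / 2)) := by
          ring
        linarith
      have h5 : 0 ≤ 2 * (gg N (dg P0) i j : ℝ) / (Irn k (dg P0 i)).card +
          4 * (gg N (dg P0) i j : ℝ) * D / Real.sqrt (q ^ dg P0 j) := by positivity
      calc τ * 2 ^ (∑ l ∈ mv.filter (· ≤ i), gg N (dg P0) l j) *
            (2 * (gg N (dg P0) i j : ℝ) / (Irn k (dg P0 i)).card +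
              4 * (gg N (dg P0) i j : ℝ) * D / Real.sqrt (q ^ dg P0 j)) ≤
            τ * 2 ^ (N * m) * (8 * N / 2 ^ (z / 2)) :=
            mul_le_mul (mul_le_mul_of_nonneg_left hpow hτ) h4 h5 (by positivity)
        _ = _ := by ring
    · exact Real.sqrt_nonneg _
  calc _ ≤ ∑ _i : Fin m, ∑ _j : Fin m, Real.sqrt (τ * 2 ^ (N * m) * (8 * N) / 2 ^ (z / 2)) :=
        Finset.sum_le_sum fun i _ => Finset.sum_le_sum fun j _ => hterm i j
    _ = _ := by
        rw [Finset.sum_const, Finset.sum_const, Finset.card_univ, Fintype.card_fin]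
        simp only [nsmul_eq_mul]
        ring

end Pool.Agent.Q162.GR
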