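import Pool.Agent.Q162.GR.ERA

/-! Project GR (helper269), job ERB: the error term for a large order. -/

set_option autoImplicit false

open scoped Classical
open Finset Polynomial

namespace Pool.Agent.Q162.GR

open Pool.Agent.Q269.GR
open Pool.Agent.Y164.PS (L sg)

/-- `d² (4/5)^d ≤ 16` -/
lemma sq_four_fifth (d : ℕ) : (d : ℝ) ^ 2 * (4 / 5) ^ d ≤ 16 := by
  have hs : ∀ e : ℕ, 9 ≤ e → (e : ℝ) ^ 2 * (4 / 5) ^ e ≤ 16 := by
    intro e he
    induction e, he using Nat.le_induction with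
    | base => norm_num
    | succ e he ih =>
      have he' : (9 : ℝ) ≤ e := by exact_mod_cast he
      have h1 : ((e : ℝ) + 1) ^ 2 * (4 / 5) ≤ (e : ℝ) ^ 2 := by nlinarith
      push_cast
      calc ((e : ℝ) + 1) ^ 2 * (4 / 5) ^ (e + 1) = (((e : ℝ) + 1) ^ 2 * (4 / 5)) * (4 / 5) ^ e := by
            ring
        _ ≤ (e : ℝ) ^ 2 * (4 / 5) ^ e := mul_le_mul_of_nonneg_right h1 (by positivity)
        _ ≤ 16 := ih
  rcases Nat.lt_or_ge d 9 with h | h
  · interval_cases d <;> norm_num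
  · exact hs d h

/-- `d (2/5)^d` is decreasing -/
lemma two_fifth {r d : ℕ} (hr : 3 ≤ r) (h : r ≤ d) : (d : ℝ) * (2 / 5) ^ d ≤ r * (2 / 5) ^ r := by
  induction d, h using Nat.le_induction with
  | base => exact le_rfl
  | succ e he ih =>
    have he' : (3 : ℝ) ≤ e := by exact_mod_cast hr.trans he
    have h1 : ((e : ℝ) + 1) * (2 / 5) ≤ e := by linarith
    push_cast
    calc ((e : ℝ) + 1) * (2 / 5) ^ (e + 1) = (((e : ℝ) + 1) * (2 / 5)) * (2 / 5) ^ e := by ring
      _ ≤ (e : ℝ) * (2 / 5) ^ e := mul_le_mul_of_nonneg_right h1 (by positivity)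
      _ ≤ _ := ih

/-- the numerical estimate -/
lemma num {r d : ℕ} (hr : 3 ≤ r) (hod : Odd r) (h : r ≤ d) :
    8 * 2 ^ ((r - 1) / 2) * 2 ^ d * (4 * (r : ℝ) * d / 5 ^ d +
      4 * r * d / Real.sqrt (5 ^ (d + r))) ≤ (6 * (r + 4) * (4 / 5) ^ r) ^ 2 := by
  set p : ℝ := 2 ^ ((r - 1) / 2) with hp
  have hp0 : 0 < p := by positivity
  have hp2 : p ^ 2 = 2 ^ (r - 1) := by
    rw [hp, ← pow_mul]
    congr 1
    obtain ⟨s, hs⟩ := hod
    omega
  have hr0 : (0 : ℝ) < r := by exact_mod_cast (by omega : 0 < r)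
  have hd0 : (0 : ℝ) < d := by exact_mod_cast (by omega : 0 < d)
  have hp2' : p ^ 2 * 2 = 2 ^ r := by
    rw [hp2, ← pow_succ]
    congr 1
    omega
  -- first term
  have h1 : p * (d * (2 / 5) ^ d) ≤ r * (16 / 25) ^ r := by
    have h2 := two_fifth hr h
    have h3 : p ≤ (8 / 5) ^ r := by
      refine (pow_le_pow_iff_left₀ (by positivity) (by positivity) two_ne_zero).1 ?_
      have e0 : (((8 : ℝ) / 5) ^ r) ^ 2 = ((8 / 5) ^ 2) ^ r := by
        rw [← pow_mul, ← pow_mul, mul_comm]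
      have h4 : (2 : ℝ) ^ r ≤ ((8 / 5) ^ 2) ^ r := pow_le_pow_left₀ (by norm_num) (by norm_num) r
      rw [e0]
      nlinarith
    calc p * (d * (2 / 5) ^ d) ≤ (8 / 5) ^ r * (r * (2 / 5) ^ r) :=
          mul_le_mul h3 h2 (by positivity) (by positivity)
      _ = r * ((8 / 5) ^ r * (2 / 5) ^ r) := by ring
      _ = r * (16 / 25) ^ r := by rw [← mul_pow]; norm_num
  -- second term
  set A := Real.sqrt (5 ^ (d + r)) with hA
  have hA0 : 0 < A := Real.sqrt_pos.2 (by positivity)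
  have hA2 : A ^ 2 = 5 ^ (d + r) := Real.sq_sqrt (by positivity)
  have h2 : p * 2 ^ d * d / A ≤ 4 * (16 / 25) ^ r := by
    rw [div_le_iff₀ hA0]
    refine (pow_le_pow_iff_left₀ (by positivity) (by positivity) two_ne_zero).1 ?_
    have h3 := sq_four_fifth d
    have e1 : (p * 2 ^ d * (d : ℝ)) ^ 2 = p ^ 2 * ((d : ℝ) ^ 2 * (4 / 5) ^ d) * 5 ^ d := by
      have : (2 : ℝ) ^ d * 2 ^ d = (4 / 5) ^ d * 5 ^ d := by
        rw [← mul_pow, ← mul_pow]; norm_num
      linear_combination p ^ 2 * (d : ℝ) ^ 2 * this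
    have e2 : (4 * (16 / 25) ^ r * A) ^ 2 = 16 * (5 ^ r * ((16 / 25) ^ r * (16 / 25) ^ r)) * 5 ^ d := by
      rw [mul_pow, mul_pow, hA2, pow_add]
      ring
    rw [e1, e2]
    apply mul_le_mul_of_nonneg_right _ (by positivity)
    have h4 : p ^ 2 ≤ 5 ^ r * ((16 / 25) ^ r * (16 / 25) ^ r) := by
      have h5 : (2 : ℝ) ^ r ≤ 5 ^ r * ((16 / 25) ^ r * (16 / 25) ^ r) := by
        rw [← mul_pow, ← mul_pow]
        exact pow_le_pow_left₀ (by norm_num) (by norm_num) r
      nlinarith [sq_nonneg p]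
    calc p ^ 2 * ((d : ℝ) ^ 2 * (4 / 5) ^ d) ≤
          (5 ^ r * ((16 / 25) ^ r * (16 / 25) ^ r)) * 16 :=
          mul_le_mul h4 h3 (by positivity) (by positivity)
      _ = _ := by ring
  have e1 : 8 * p * 2 ^ d * (4 * (r : ℝ) * d / 5 ^ d + 4 * r * d / A) =
      32 * r * (p * (d * (2 / 5) ^ d)) + 32 * r * (p * 2 ^ d * d / A) := by
    have : (2 / 5 : ℝ) ^ d = 2 ^ d / 5 ^ d := div_pow _ _ _
    rw [this]
    ring
  rw [e1]
  have e2 : (6 * ((r : ℝ) + 4) * (4 / 5) ^ r) ^ 2 = 36 * (r + 4) ^ 2 * (16 / 25) ^ r := by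
    rw [mul_pow, ← pow_mul, mul_comm r 2, pow_mul]
    norm_num
    ring
  rw [e2]
  have h3 : 32 * (r : ℝ) * (p * (d * (2 / 5) ^ d)) ≤ 32 * r * (r * (16 / 25) ^ r) :=
    mul_le_mul_of_nonneg_left h1 (by positivity)
  have h4 : 32 * (r : ℝ) * (p * 2 ^ d * d / A) ≤ 32 * r * (4 * (16 / 25) ^ r) :=
    mul_le_mul_of_nonneg_left h2 (by positivity)
  have h5 : 32 * (r : ℝ) * (r * (16 / 25) ^ r) + 32 * r * (4 * (16 / 25) ^ r) ≤
      36 * (r + 4) ^ 2 * (16 / 25) ^ r := by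
    have h6 : (0 : ℝ) < (16 / 25) ^ r := by positivity
    have h7 : 32 * (r : ℝ) ^ 2 + 128 * r ≤ 36 * (r + 4) ^ 2 := by nlinarith
    calc _ = (32 * (r : ℝ) ^ 2 + 128 * r) * (16 / 25) ^ r := by ring
      _ ≤ _ := mul_le_mul_of_nonneg_right h7 h6.le
  linarith

theorem t_ERB (h : S_IRC) : S_ERB := by
  intro k _ _ hk Δ m r P0 mv hod hr1 hmv hC
  unfold erT
  set q : ℝ := (Fintype.card k : ℝ) with hq
  have hq5 : (5 : ℝ) ≤ q := by rw [hq]; exact_mod_cast hk
  have hr3 : 3 ≤ r := by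
    obtain ⟨s, hs⟩ := hod
    omega
  have hr0 : 0 < r := by omega
  have hpos : ∀ i ∈ mv, 0 < dg P0 i := fun i hi => lt_of_le_of_lt (Nat.zero_le _) (hC.big i hi)
  have hge : ∀ i ∈ mv, r ≤ dg P0 i := fun i hi => Nat.le_of_dvd (hpos i hi) ((hmv i).1 hi)
  have hgg : ∀ i ∈ mv, ∀ j ∈ mv, gg r (dg P0) i j = r := by
    intro i hi j hj
    unfold gg
    exact Nat.gcd_eq_left (Nat.dvd_gcd ((hmv i).1 hi) ((hmv j).1 hj))
  have hcount : ∀ i ∈ mv, r * (mv.filter (· ≤ i)).card ≤ dg P0 i := by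
    intro i hi
    have h1 : (mv.filter (· ≤ i)).card ≤ (Finset.Icc 1 (dg P0 i / r)).card := by
      apply Finset.card_le_card_of_injOn (fun l => dg P0 l / r)
      · intro l hl
        have hl' := Finset.mem_filter.1 hl
        rw [Finset.mem_coe, Finset.mem_Icc]
        constructor
        · exact Nat.div_pos (hge l hl'.1) hr0
        · apply Nat.div_le_div_right
          rcases lt_or_eq_of_le hl'.2 with h2 | h2
          · exact (hC.mono l hl'.1 i hi h2).le
          · rw [h2]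
      · intro l hl l' hl' he
        have hl2 := Finset.mem_filter.1 hl
        have hl2' := Finset.mem_filter.1 hl'
        have he' : dg P0 l / r = dg P0 l' / r := he
        have h3 : dg P0 l = dg P0 l' := by
          rw [← Nat.div_mul_cancel ((hmv l).1 hl2.1), ← Nat.div_mul_cancel ((hmv l').1 hl2'.1), he']
        rcases lt_trichotomy l l' with h4 | h4 | h4
        · exact absurd h3 (hC.mono l hl2.1 l' hl2'.1 h4).ne
        · exact h4
        · exact absurd h3.symm (hC.mono l' hl2'.1 l hl2.1 h4).ne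
    rw [Nat.card_Icc, Nat.add_sub_cancel] at h1
    calc r * (mv.filter (· ≤ i)).card ≤ r * (dg P0 i / r) := Nat.mul_le_mul_left _ h1
      _ ≤ dg P0 i := Nat.mul_div_le _ _
  have hterm : ∀ i j : Fin m, (if i < j ∧ i ∈ mv ∧ j ∈ mv then
      Real.sqrt (8 * 2 ^ ((r - 1) / 2) * 2 ^ (∑ l ∈ mv.filter (· ≤ i), gg r (dg P0) l j) *
        (2 * gg r (dg P0) i j / (Irn k (dg P0 i)).card +
          4 * gg r (dg P0) i j * dg P0 i / Real.sqrt (q ^ dg P0 j))) else 0) ≤
      6 * (r + 4) * (4 / 5) ^ r := by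
    intro i j
    split_ifs with hij
    · obtain ⟨hlt, hi, hj⟩ := hij
      apply Real.sqrt_le_iff.2
      refine ⟨by positivity, ?_⟩
      refine le_trans ?_ (num hr3 hod (hge i hi))
      have hdi0 : 0 < dg P0 i := hpos i hi
      have hdij : dg P0 i + r ≤ dg P0 j := by
        have h1 := hC.mono i hi j hj hlt
        have h2 : r ∣ dg P0 j - dg P0 i := Nat.dvd_sub ((hmv j).1 hj) ((hmv i).1 hi)
        have h3 := Nat.le_of_dvd (by omega) h2
        omega
      have hpow : (2 : ℝ) ^ (∑ l ∈ mv.filter (· ≤ i), gg r (dg P0) l j) ≤ 2 ^ dg P0 i := by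
        apply pow_le_pow_right₀ (by norm_num)
        refine le_trans (le_of_eq ?_) (hcount i hi)
        rw [Finset.sum_congr rfl (fun l hl => hgg l (Finset.mem_filter.1 hl).1 j hj),
          Finset.sum_const, smul_eq_mul, mul_comm]
      rw [hgg i hi j hj]
      have h1 : 2 * (r : ℝ) / (Irn k (dg P0 i)).card ≤ 4 * r * dg P0 i / 5 ^ dg P0 i := by
        have h2 := inv_irn h hk hdi0
        have h3 : 2 * (r : ℝ) / (Irn k (dg P0 i)).card =
            2 * (r : ℝ) * (1 / (Irn k (dg P0 i)).card) := by ring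
        rw [h3]
        calc 2 * (r : ℝ) * (1 / (Irn k (dg P0 i)).card) ≤
              2 * r * (2 * dg P0 i / q ^ dg P0 i) := mul_le_mul_of_nonneg_left h2 (by positivity)
          _ = 4 * r * dg P0 i / q ^ dg P0 i := by ring
          _ ≤ _ := div_le_div_of_nonneg_left (by positivity) (by positivity)
              (pow_le_pow_left₀ (by norm_num) hq5 _)
      have h2 : 4 * (r : ℝ) * dg P0 i / Real.sqrt (q ^ dg P0 j) ≤
          4 * r * dg P0 i / Real.sqrt (5 ^ (dg P0 i + r)) := by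
        apply div_le_div_of_nonneg_left (by positivity) (Real.sqrt_pos.2 (by positivity))
        apply Real.sqrt_le_sqrt
        calc (5 : ℝ) ^ (dg P0 i + r) ≤ 5 ^ dg P0 j := pow_le_pow_right₀ (by norm_num) hdij
          _ ≤ q ^ dg P0 j := pow_le_pow_left₀ (by norm_num) hq5 _
      exact mul_le_mul (mul_le_mul_of_nonneg_left hpow (by positivity)) (add_le_add h1 h2)
        (by positivity) (by positivity)
    · positivity
  calc _ ≤ ∑ _i : Fin m, ∑ _j : Fin m, (6 * ((r : ℝ) + 4) * (4 / 5) ^ r) :=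
        Finset.sum_le_sum fun i _ => Finset.sum_le_sum fun j _ => hterm i j
    _ = _ := by
        rw [Finset.sum_const, Finset.sum_const, Finset.card_univ, Fintype.card_fin]
        simp only [nsmul_eq_mul]
        ring

end Pool.Agent.Q162.GR
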