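import Pool.Agent.Q269.GR.StD

/-! Project GR (helper269), job PRD: the prime divisors of a squarefree polynomial. -/

set_option autoImplicit false

open scoped Classical
open Finset Polynomial

namespace Pool.Agent.Q162.GR

open Pool.Agent.Q269.GR
open Pool.Agent.Y164.PS (L sg)
open Pool.Agent.H341R2.Sharp (Mon mem_Mon)

section

variable {k : Type} [Field k] [Fintype k]

lemma mem_Dn {Δ D : k[X]} {n : ℕ} : D ∈ Dn Δ n ↔ D.Monic ∧ D.natDegree = n ∧ Squarefree D ∧
    IsCoprime D Δ := by
  unfold Dn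
  rw [Finset.mem_filter, mem_Mon, and_assoc]

lemma mem_Irn {P : k[X]} {d : ℕ} : P ∈ Irn k d ↔ P.Monic ∧ P.natDegree = d ∧ Irreducible P := by
  unfold Irn
  rw [Finset.mem_filter, mem_Mon, and_assoc]

omit [Fintype k] in
lemma mem_pr {D : k[X]} (hD : D ≠ 0) (P : k[X]) : P ∈ pr D ↔ P.Monic ∧ Irreducible P ∧ P ∣ D := by
  unfold pr
  rw [Multiset.mem_toFinset, UniqueFactorizationMonoid.mem_normalizedFactors_iff' hD]
  constructor
  · rintro ⟨h1, h2, h3⟩
    exact ⟨(normalize_eq_self_iff_monic h1.ne_zero).1 h2, h1, h3⟩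
  · rintro ⟨h1, h2, h3⟩
    exact ⟨h2, (normalize_eq_self_iff_monic h2.ne_zero).2 h1, h3⟩

omit [Fintype k] in
lemma prod_pr {D : k[X]} (hD : D.Monic) (hs : Squarefree D) : ∏ P ∈ pr D, P = D := by
  have h1 := (UniqueFactorizationMonoid.squarefree_iff_nodup_normalizedFactors hD.ne_zero).1 hs
  have h2 : ∏ P ∈ pr D, P = (UniqueFactorizationMonoid.normalizedFactors D).prod := by
    unfold pr
    rw [Finset.prod_eq_multiset_prod, Multiset.toFinset_val, Multiset.dedup_eq_self.2 h1,
      Multiset.map_id']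
  rw [h2, UniqueFactorizationMonoid.prod_normalizedFactors_eq hD.ne_zero]
  exact (normalize_eq_self_iff_monic hD.ne_zero).2 hD

omit [Fintype k] in
lemma not_dvd_cop {P Δ : k[X]} (hi : Irreducible P) : IsCoprime P Δ ↔ ¬ P ∣ Δ :=
  hi.coprime_iff_not_dvd

omit [Fintype k] in
theorem t_PRD0 (Δ : k[X]) (hΔ : Δ ≠ 0) : (pr Δ).card ≤ Δ.natDegree := by
  have h1 : ∏ P ∈ pr Δ, P ∣ Δ := by
    have h2 : ∏ P ∈ pr Δ, P ∣ (UniqueFactorizationMonoid.normalizedFactors Δ).prod := by
      unfold pr
      have h3 := (UniqueFactorizationMonoid.normalizedFactors Δ).toFinset_prod_dvd_prod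
      exact h3
    exact h2.trans (UniqueFactorizationMonoid.prod_normalizedFactors hΔ).dvd
  have h2 : (∏ P ∈ pr Δ, P).natDegree = ∑ P ∈ pr Δ, P.natDegree :=
    natDegree_prod_of_monic _ _ fun P hP => ((mem_pr hΔ P).1 hP).1
  have h3 := natDegree_le_of_dvd h1 hΔ
  rw [h2] at h3
  refine le_trans ?_ h3
  rw [Finset.card_eq_sum_ones]
  refine Finset.sum_le_sum fun P hP => ?_
  exact ((mem_pr hΔ P).1 hP).2.1.natDegree_pos

end

theorem t_PRD : S_PRD := by
  intro k _ _ Δ hΔ
  refine ⟨?_, ?_, ?_, t_PRD0 Δ hΔ, mem_pr hΔ, ?_⟩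
  · intro ι _ P hP
    have hmon : (∏ i, P i).Monic := monic_prod_of_monic _ _ fun i _ => hP.mon i
    constructor
    · ext Q
      rw [mem_pr hmon.ne_zero, Finset.mem_image]
      constructor
      · rintro ⟨h1, h2, h3⟩
        obtain ⟨i, -, hi⟩ := (h2.prime.dvd_finsetProd_iff _).1 h3
        refine ⟨i, Finset.mem_univ i, ?_⟩
        exact (eq_of_monic_of_associated h1 (hP.mon i)
          (h2.associated_of_dvd (hP.irr i) hi)).symm
      · rintro ⟨i, -, rfl⟩
        exact ⟨hP.mon i, hP.irr i, Finset.dvd_prod_of_mem _ (Finset.mem_univ i)⟩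
    · rw [mem_Dn]
      refine ⟨hmon, natDegree_prod_of_monic _ _ fun i _ => hP.mon i, ?_, ?_⟩
      · refine Finset.squarefree_prod_of_pairwise_isCoprime ?_ fun i _ => (hP.irr i).squarefree
        intro i _ j _ hij
        show IsRelPrime (P i) (P j)
        refine IsCoprime.isRelPrime ?_
        rw [not_dvd_cop (hP.irr i)]
        intro hd
        exact hij (hP.inj (eq_of_monic_of_associated (hP.mon i) (hP.mon j)
          ((hP.irr i).associated_of_dvd (hP.irr j) hd)))
      · exact IsCoprime.prod_left fun i _ => (not_dvd_cop (hP.irr i)).2 (hP.cop i)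
  · intro n D hD
    obtain ⟨h1, h2, h3, h4⟩ := mem_Dn.1 hD
    refine ⟨prod_pr h1 h3, ?_, mem_pr h1.ne_zero⟩
    have h5 : (∏ P ∈ pr D, P).natDegree = ∑ P ∈ pr D, P.natDegree :=
      natDegree_prod_of_monic _ _ fun P hP => ((mem_pr h1.ne_zero P).1 hP).1
    rw [← h5, prod_pr h1 h3, h2]
  · intro n D hD
    obtain ⟨h1, h2, h3, h4⟩ := mem_Dn.1 hD
    have h5 : ∀ i : {P : k[X] // P ∈ pr D}, _ := fun i => (mem_pr h1.ne_zero i.1).1 i.2
    refine ⟨fun i => (h5 i).1, fun i => (h5 i).2.1, Subtype.val_injective, fun i => ?_⟩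
    rw [← not_dvd_cop (h5 i).2.1]
    exact h4.of_isCoprime_of_dvd_left (h5 i).2.2
  · intro m P0 mv hC T hT
    rw [Fintype.mem_piFinset] at hT
    have h1 : ∀ i, i ∈ mv → (T i).Monic ∧ (T i).natDegree = dg P0 i ∧ Irreducible (T i) := by
      intro i hi
      have h2 := hT i
      unfold Ce at h2
      rw [if_pos hi] at h2
      exact mem_Irn.1 h2
    have h2 : ∀ i, i ∉ mv → T i = P0 i := by
      intro i hi
      have h2 := hT i
      unfold Ce at h2
      rw [if_neg hi, Finset.mem_singleton] at h2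
      exact h2
    have hdeg : ∀ i, (T i).natDegree = dg P0 i := by
      intro i
      by_cases hi : i ∈ mv
      · exact (h1 i hi).2.1
      · rw [h2 i hi]
        rfl
    refine ⟨⟨?_, ?_, ?_, ?_⟩, hdeg, h2⟩
    · intro i
      by_cases hi : i ∈ mv
      · exact (h1 i hi).1
      · rw [h2 i hi]
        exact hC.fam.mon i
    · intro i
      by_cases hi : i ∈ mv
      · exact (h1 i hi).2.2
      · rw [h2 i hi]
        exact hC.fam.irr i
    · intro i j hij
      have h3 : dg P0 i = dg P0 j := by rw [← hdeg i, ← hdeg j, hij]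
      by_cases hi : i ∈ mv
      · by_cases hj : j ∈ mv
        · rcases lt_trichotomy i j with h4 | h4 | h4
          · exact absurd h3 (hC.mono i hi j hj h4).ne
          · exact h4
          · exact absurd h3.symm (hC.mono j hj i hi h4).ne
        · exact absurd h3 (hC.fix i hi j hj)
      · by_cases hj : j ∈ mv
        · exact absurd h3.symm (hC.fix j hj i hi)
        · rw [h2 i hi, h2 j hj] at hij
          exact hC.fam.inj hij
    · intro i
      by_cases hi : i ∈ mv
      · intro hd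
        have h3 := natDegree_le_of_dvd hd hΔ
        have h4 := hC.big i hi
        rw [hdeg i] at h3
        omega
      · rw [h2 i hi]
        exact hC.fam.cop i

end Pool.Agent.Q162.GR
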