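import Pool.Agent.H200G.Stm

/-! # Project GR: job STEPS (one more slab, independence) -/

set_option autoImplicit false

namespace Pool.Agent.Q162.GR

open Finset Pool.Agent Pool.Agent.TH176.Nag Pool.Agent.TH603.Sur Pool.Agent.TH2.NU
open Pool.Agent.TH641.UM Pool.Agent.Y205.FW Pool.Agent.Y205.MD Pool.Agent.H200W Pool.Agent.H200P
open Pool.Agent.H200G

/-- every need is at most the sum -/
theorem le_sum_of_mem {L : List (Multiset ℕ × ℝ)} (h : ∀ x ∈ L, 0 ≤ x.2) {x : Multiset ℕ × ℝ}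
    (hx : x ∈ L) : x.2 ≤ (L.map Prod.snd).sum := by
  refine List.single_le_sum ?_ _ (List.mem_map_of_mem hx)
  intro y hy
  obtain ⟨z, hz, rfl⟩ := List.mem_map.1 hy
  exact h z hz

/-- **Job STEPS.** -/
theorem stepS : S_StepS := by
  intro R η nA Y A L hR hη hnA hA hL hY hRn hLn ρ b hρ hρR hb hn
  set nG := (L.map Prod.snd).sum with hnG
  have hnG0 : 0 ≤ nG := by
    refine le_trans ?_ hLn
    positivity
  have hρ0 : 0 < ρ := by linarith
  -- the base
  set n := nA + nG with hndef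
  have hn0 : 0 ≤ n := by positivity
  set r0 := √(9 / 16 + ρ * n) with hr0
  have hr0s : r0 ^ 2 = 9 / 16 + ρ * n := Real.sq_sqrt (by positivity)
  have hr0n : 0 ≤ r0 := Real.sqrt_nonneg _
  have hr03 : 3 / 4 ≤ r0 := by
    by_contra h
    push Not at h
    nlinarith [mul_nonneg hρ0.le hn0]
  set r1 := √(9 / 16 + ρ * nA) with hr1
  have hr1s : r1 ^ 2 = 9 / 16 + ρ * nA := Real.sq_sqrt (by positivity)
  have hr1n : 0 ≤ r1 := Real.sqrt_nonneg _
  have hr13 : 3 / 4 ≤ r1 := by
    by_contra h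
    push Not at h
    nlinarith [mul_nonneg hρ0.le hnA]
  set b0 := 3 / 4 + r0 with hb0
  set b' := 3 / 4 + r1 with hb'
  have hbb : ρ * n ≤ b ^ 2 - 3 / 2 * b := by
    have h1 : ρ * (n + 3 / 2 * (b / ρ)) ≤ ρ * (b ^ 2 / ρ) := mul_le_mul_of_nonneg_left hn hρ0.le
    have h2 : ρ * (b ^ 2 / ρ) = b ^ 2 := by field_simp
    have h3 : ρ * (n + 3 / 2 * (b / ρ)) = ρ * n + 3 / 2 * b := by field_simp
    linarith
  have hb0b : b0 ≤ b := by
    by_contra h
    push Not at h
    have h1 : 0 < (b0 - b) * (b0 + b - 3 / 2) := mul_pos (by linarith) (by linarith)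
    nlinarith
  have hr0Y : r0 ≤ 3 / 4 + Y := by
    by_contra h
    push Not at h
    have h1 : ρ * n ≤ R * n := mul_le_mul_of_nonneg_right hρR hn0
    nlinarith
  -- the height
  set t := (b0 - b') / ρ with ht
  have hρt : ρ * t = b0 - b' := by
    rw [ht]
    field_simp
  have htG : t * (b0 + b' - 3 / 2) = nG := by
    have h1 : ρ * (t * (b0 + b' - 3 / 2)) = ρ * nG := by
      rw [← mul_assoc, hρt, hb0, hb']
      have h2 : ρ * n = ρ * nA + ρ * nG := by rw [hndef]; ring
      nlinarith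
    exact mul_left_cancel₀ hρ0.ne' h1
  have hr10 : r1 ≤ r0 := by
    by_contra h
    push Not at h
    have h1 : ρ * nA ≤ ρ * n := mul_le_mul_of_nonneg_left (by rw [hndef]; linarith) hρ0.le
    nlinarith
  have ht0 : 0 ≤ t := div_nonneg (by rw [hb0, hb']; linarith) hρ0.le
  have htη : 4 * η + 1 ≤ t := by
    have h1 : (4 * η + 1) * (3 + 2 * Y) ≤ t * (3 + 2 * Y) := by
      refine hLn.trans ?_
      rw [← htG]
      refine mul_le_mul_of_nonneg_left ?_ ht0
      rw [hb0, hb']
      linarith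
    exact le_of_mul_le_mul_right h1 (by linarith)
  have htpos : 0 < t := by linarith
  have hb0t : 2 * t ≤ b0 := by
    have h1 : 2 * t ≤ ρ * t := mul_le_mul_of_nonneg_right hρ ht0
    rw [hρt, hb'] at h1
    linarith
  -- the slab
  have hS1 : SurM (L.map Prod.fst).sum (TO b0 ρ t) := by
    refine Q274.WR.trapS p_nodeS p_ktrapS htpos hρ (by rw [hρt, hb']; linarith) ?_
    set σ := 4 * (2 * b0 - ρ * t - 1) / t with hσ
    have hσt : σ * t = 4 * (b0 + b' - 1) := by
      rw [hσ, hρt]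
      field_simp
      ring
    have hσ8 : 8 ≤ σ := by
      have h1 : 8 * t ≤ σ * t := by
        rw [hσt, hb']
        linarith
      exact le_of_mul_le_mul_right h1 htpos
    have h2 := p_rtS (h := η) (u := nG) (b := σ * (t / 2)) (ρ := σ) (by linarith) (by linarith) (by
      have h3 : σ * (4 * η + 1) ≤ σ * t := mul_le_mul_of_nonneg_left htη (by linarith)
      nlinarith)
    refine h2 L (fun x hx => ⟨(hL x hx).1, (hL x hx).2, le_sum_of_mem (fun x hx => (hL x hx).2) hx⟩)
      ?_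
    have h4 : (σ * (t / 2)) ^ 2 / σ - σ * (t / 2) / σ = nG := by
      have hσ0 : σ ≠ 0 := by
        intro h
        rw [h] at hσ8
        norm_num at hσ8
      have h5 : (σ * (t / 2)) ^ 2 / σ = σ * t * t / 4 := by
        field_simp
        ring
      have h6 : σ * (t / 2) / σ = t / 2 := by field_simp
      rw [h5, h6, hσt, ← htG]
      ring
    rw [h4]
  -- the rest
  have hS2 : SurM A {p : ℤ × ℤ | p ∈ RO b0 ρ ∧ t < p.2} := by
    classical
    refine p_colS (fun _ => t) (fun x => if 0 < x then (b' - x) / ρ else 0) ?_ ?_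
    · intro x y h1 h2
      by_cases hx : 0 < x
      · rw [if_pos hx] at h2
        have hy : (0 : ℝ) < y := by linarith
        have h3 : ρ * ((y : ℝ) - t) < b' - x := by
          have h4 : (y : ℝ) - t < (b' - x) / ρ := by linarith
          rw [lt_div_iff₀ hρ0] at h4
          linarith
        refine ⟨⟨hx, by exact_mod_cast hy, ?_⟩, h1⟩
        change (x : ℝ) + ρ * y < b0
        nlinarith
      · rw [if_neg hx] at h2
        exfalso
        linarith
    · refine Q53.WR.surM_mono (hA ρ b' hρ hρR (by linarith) ?_) ?_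
      · have h1 : nA + 3 / 2 * (b' / ρ) = b' ^ 2 / ρ := by
          field_simp
          rw [hb']
          nlinarith
        rw [h1]
      · rintro ⟨x, y⟩ ⟨hx, hy, hxy⟩
        change 0 < y ∧ (y : ℝ) < if 0 < x then (b' - x) / ρ else 0
        have hx' : 0 < x := hx
        rw [if_pos hx']
        refine ⟨hy, ?_⟩
        rw [lt_div_iff₀ hρ0]
        change (x : ℝ) + ρ * y < b' at hxy
        linarith
  have hcut := p_cutS (S := RO b0 ρ) 0 1 t (S1 := TO b0 ρ t)
    (S2 := {p : ℤ × ℤ | p ∈ RO b0 ρ ∧ t < p.2}) (by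
      rintro ⟨x, y⟩ ⟨h1, h2, h3, h4⟩
      refine ⟨⟨h1, h2, h4⟩, ?_⟩
      change 0 * (x : ℝ) + 1 * (y : ℝ) ≤ t
      have h3' : (y : ℝ) < t := h3
      linarith) (by
      rintro ⟨x, y⟩ ⟨h1, h2⟩
      refine ⟨h1, ?_⟩
      change t < 0 * (x : ℝ) + 1 * (y : ℝ)
      have h2' : t < (y : ℝ) := h2
      linarith) hS1 hS2
  rw [add_comm] at hcut
  refine Q53.WR.surM_mono hcut ?_
  rintro ⟨x, y⟩ ⟨h1, h2, h3⟩
  exact ⟨h1, h2, lt_of_lt_of_le h3 hb0b⟩

end Pool.Agent.Q162.GR
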