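import Pool.Agent.Q269.GR.StD

/-! Project GR (helper269), job TNP: the parameter. -/

set_option autoImplicit false

open scoped Classical
open Finset Polynomial

namespace Pool.Agent.Q162.GR

open Pool.Agent.Q269.GR
open Pool.Agent.Y164.PS (L sg)

theorem t_TNP : S_TNP := by
  constructor
  · unfold tn
    refine tendsto_nat_floor_atTop.comp ?_
    refine (tendsto_rpow_atTop (by norm_num : (0 : ℝ) < 1 / 10)).comp ?_
    exact Real.tendsto_log_atTop.comp tendsto_natCast_atTop_atTop
  · intro n hn
    have h0 : 0 ≤ Real.log n := Real.log_natCast_nonneg n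
    set y := Real.log n ^ (1 / 10 : ℝ) with hy
    have hy0 : 0 ≤ y := Real.rpow_nonneg h0 _
    have hy10 : y ^ 10 = Real.log n := by
      rw [hy, ← Real.rpow_natCast, ← Real.rpow_mul h0]
      norm_num
    have e : tn n = ⌊y⌋₊ := rfl
    constructor
    · rw [← hy10, e]
      exact pow_le_pow_left₀ (Nat.cast_nonneg _) (Nat.floor_le hy0) 10
    · rw [← hy10, e]
      exact pow_lt_pow_left₀ (Nat.lt_floor_add_one y) hy0 (by norm_num)

end Pool.Agent.Q162.GR
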