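import Pool.Agent.Q162.GR.PRD
import Pool.Agent.Q162.GR.ERA

/-! Project GR (helper269), job TRF: in a cell the symbols of the pairs of moving primes are uniform
and independent of the types. -/

set_option autoImplicit false

open scoped Classical
open Finset Polynomial

namespace Pool.Agent.Q162.GR

open Pool.Agent.Q269.GR
open Pool.Agent.Y164.PS (L sg)
open Pool.Agent.H341R2.Sharp (Mon mem_Mon)

/-- means are preserved by surjective homomorphisms -/
lemma mean_surj {G H : Type} [AddGroup G] [AddGroup H] [Fintype G] [Fintype H] (φ : G →+ H)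
    (hφ : Function.Surjective φ) (F : H → ℝ) :
    (∑ g, F (φ g)) / Fintype.card G = (∑ h, F h) / Fintype.card H := by
  set c : ℕ := (univ.filter fun g : G => φ g = 0).card with hc
  have hfib : ∀ h : H, (univ.filter fun g : G => φ g = h).card = c := fun h =>
    AddMonoidHom.card_fiber_eq_of_mem_range φ (hφ h) (hφ 0)
  have hc0 : 0 < c := by
    rw [hc, Finset.card_pos]
    exact ⟨0, by rw [Finset.mem_filter]; exact ⟨Finset.mem_univ _, map_zero φ⟩⟩
  have h1 : ∀ F : H → ℝ, ∑ g, F (φ g) = c * ∑ h, F h := by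
    intro F
    rw [← Finset.sum_fiberwise univ φ (fun g => F (φ g)), Finset.mul_sum]
    refine Finset.sum_congr rfl fun h _ => ?_
    rw [Finset.sum_congr rfl (fun g hg => by rw [(Finset.mem_filter.1 hg).2] :
      ∀ g ∈ univ.filter (fun g : G => φ g = h), F (φ g) = F h), Finset.sum_const, hfib,
      nsmul_eq_mul]
  have h2 := h1 (fun _ => 1)
  rw [Finset.sum_const, Finset.sum_const, Finset.card_univ, Finset.card_univ, nsmul_eq_mul,
    nsmul_eq_mul, mul_one, mul_one] at h2
  have hc' : (c : ℝ) ≠ 0 := by exact_mod_cast hc0.ne'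
  rw [h1, h2, mul_div_mul_left _ _ hc']

/-- sums over a product of finite sets -/
lemma sum_pi {m : ℕ} {α : Type} (S : Fin m → Finset α) (f : (Fin m → α) → ℝ) :
    ∑ T ∈ Fintype.piFinset S, f T = ∑ T : (∀ i, {x // x ∈ S i}), f (fun i => (T i).1) := by
  refine Finset.sum_bij' (fun T hT => fun i => ⟨T i, Fintype.mem_piFinset.1 hT i⟩)
    (fun T _ => fun i => (T i).1) ?_ ?_ ?_ ?_ ?_
  · intro T hT
    exact Finset.mem_univ _
  · intro T _
    exact Fintype.mem_piFinset.2 fun i => (T i).2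
  · intro T hT
    rfl
  · intro T _
    rfl
  · intro T hT
    rfl

section

variable {k : Type} [Field k] [Fintype k]

/-- the lengths of the vectors of bits -/
noncomputable def g' (N : ℕ) {m : ℕ} (P0 : Fin m → k[X]) (mv : Finset (Fin m)) (i j : Fin m) : ℕ :=
  if i ∈ mv ∧ j ∈ mv then gg N (dg P0) i j else 0

omit [Fintype k] in
lemma g'_le (N : ℕ) {m : ℕ} (P0 : Fin m → k[X]) (mv : Finset (Fin m)) (i j : Fin m) :
    g' N P0 mv i j ≤ gg N (dg P0) i j := by
  unfold g'
  split_ifs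
  · exact le_rfl
  · exact Nat.zero_le _

/-- restriction -/
noncomputable def res (N : ℕ) {m : ℕ} (P0 : Fin m → k[X]) (mv : Finset (Fin m)) :
    Bt N (dg P0) →+ (∀ i j : Fin m, Fin (g' N P0 mv i j) → F2) where
  toFun s := fun i j c => s i j ⟨c, lt_of_lt_of_le c.2 (g'_le N P0 mv i j)⟩
  map_zero' := rfl
  map_add' _ _ := rfl

/-- extension by zero -/
noncomputable def ext0 (N : ℕ) {m : ℕ} (P0 : Fin m → k[X]) (mv : Finset (Fin m))
    (s : ∀ i j : Fin m, Fin (g' N P0 mv i j) → F2) : Bt N (dg P0) :=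
  fun i j c => if h : (c : ℕ) < g' N P0 mv i j then s i j ⟨c, h⟩ else 0

omit [Fintype k] in
lemma res_ext (N : ℕ) {m : ℕ} (P0 : Fin m → k[X]) (mv : Finset (Fin m))
    (s : ∀ i j : Fin m, Fin (g' N P0 mv i j) → F2) : res N P0 mv (ext0 N P0 mv s) = s := by
  funext i j c
  show ext0 N P0 mv s i j ⟨c, _⟩ = s i j c
  unfold ext0
  rw [dif_pos c.2]

omit [Fintype k] in
lemma ext_res (N : ℕ) {m : ℕ} (P0 : Fin m → k[X]) (mv : Finset (Fin m)) (s : Bt N (dg P0))
    {i j : Fin m} (hi : i ∈ mv) (hj : j ∈ mv) :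
    ext0 N P0 mv (res N P0 mv s) i j = s i j := by
  funext c
  unfold ext0
  have h : (c : ℕ) < g' N P0 mv i j := by
    unfold g'
    rw [if_pos ⟨hi, hj⟩]
    exact c.2
  rw [dif_pos h]
  rfl

/-- the hypothesis on the characters -/
lemma chars (h1 : S_OPB) (h2 : S_DUA) (h4 : S_IRC) (hch : ringChar k ≠ 2)
    (hk : 5 ≤ Fintype.card k) {Δ : k[X]} {N m : ℕ} (P0 : Fin m → k[X]) (mv : Finset (Fin m))
    (hN : 0 < N) (hC : IsCe Δ P0 mv) (i j : Fin m) (hij : i < j) (hi : i ∈ mv) (hj : j ∈ mv)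
    (u : ℕ → F2) (hu : ∃ c < gg N (dg P0) i j, u c ≠ 0)
    (g : {P // P ∈ Ce P0 mv j} → ℝ) :
    ∑ p : {P // P ∈ Ce P0 mv i}, (∑ p' : {P // P ∈ Ce P0 mv j}, g p' *
      sg (∑ c ∈ range (gg N (dg P0) i j), u c * sy (gg N (dg P0) i j) p.1 p'.1 c)) ^ 2 ≤
      (2 * gg N (dg P0) i j / (Irn k (dg P0 i)).card +
        4 * gg N (dg P0) i j * dg P0 i / Real.sqrt ((Fintype.card k : ℝ) ^ dg P0 j)) *
        Fintype.card {P // P ∈ Ce P0 mv i} * Fintype.card {P // P ∈ Ce P0 mv j} *
        ∑ p', g p' ^ 2 := by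
  have hdi : 0 < dg P0 i := lt_of_le_of_lt (Nat.zero_le _) (hC.big i hi)
  have hdj : 0 < dg P0 j := lt_of_le_of_lt (Nat.zero_le _) (hC.big j hj)
  have hCi : Ce P0 mv i = Irn k (dg P0 i) := if_pos hi
  have hCj : Ce P0 mv j = Irn k (dg P0 j) := if_pos hj
  set G := gg N (dg P0) i j with hG
  have hG0 : 0 < G := Nat.gcd_pos_of_pos_left _ hN
  have hGi : G ∣ dg P0 i := (Nat.gcd_dvd_right _ _).trans (Nat.gcd_dvd_left _ _)
  have hGj : G ∣ dg P0 j := (Nat.gcd_dvd_right _ _).trans (Nat.gcd_dvd_right _ _)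
  have hne : dg P0 i ≠ dg P0 j := (hC.mono i hi j hj hij).ne
  set Q : ℝ := (Fintype.card k : ℝ) ^ dg P0 j with hQ
  have hq : (0 : ℝ) < Fintype.card k := by exact_mod_cast (by omega : 0 < Fintype.card k)
  have hQ0 : 0 < Q := by positivity
  set Ii : ℝ := ((Irn k (dg P0 i)).card : ℝ) with hIi
  set Ij : ℝ := ((Irn k (dg P0 j)).card : ℝ) with hIj
  have hdi' : (0 : ℝ) < dg P0 i := by exact_mod_cast hdi
  have hdj' : (0 : ℝ) < dg P0 j := by exact_mod_cast hdj
  have hIi0 : 0 < Ii := by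
    have h5 := (h4 k hk (dg P0 i) hdi).2.1
    rw [← hIi] at h5
    have h6 : (0 : ℝ) < (Fintype.card k : ℝ) ^ dg P0 i := by positivity
    by_contra hc
    push Not at hc
    nlinarith
  have hIjQ : Q ≤ 2 * dg P0 j * Ij := (h4 k hk (dg P0 j) hdj).2.1
  have hsQ : 0 < Real.sqrt Q := Real.sqrt_pos.2 hQ0
  have hsQ2 : Real.sqrt Q * Real.sqrt Q = Q := Real.mul_self_sqrt hQ0.le
  set CC : ℝ := ((G : ℝ) / dg P0 j) * (Q + 2 * dg P0 i * Real.sqrt Q * Ii) with hCC
  have hCC0 : 0 ≤ CC := by positivity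
  have hdual := h2 {P // P ∈ Ce P0 mv j} {P // P ∈ Ce P0 mv i}
    (fun p' p => sg (∑ c ∈ range G, u c * sy G p.1 p'.1 c)) CC hCC0 (by
      intro w
      set w' : k[X] → ℝ := fun P => if h : P ∈ Ce P0 mv i then w ⟨P, h⟩ else 0 with hw'
      have h5 := h1 k hch G (dg P0 i) (dg P0 j) hG0 hdi hdj hGi hGj hne u hu w'
      rw [← hCi, ← hCj] at h5
      rw [← Finset.sum_coe_sort (Ce P0 mv j), ← Finset.sum_coe_sort (Ce P0 mv i)] at h5
      have e1 : ∀ p : {P // P ∈ Ce P0 mv i}, w' p.1 = w p := fun p => by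
        simp only [hw']
        rw [dif_pos p.2]
      have e2 : ∀ P' : k[X], ∑ P ∈ Ce P0 mv i, w' P * sg (∑ c ∈ range G, u c * sy G P P' c) =
          ∑ p : {P // P ∈ Ce P0 mv i}, sg (∑ c ∈ range G, u c * sy G p.1 P' c) * w p := by
        intro P'
        rw [← Finset.sum_coe_sort (Ce P0 mv i)]
        exact Finset.sum_congr rfl fun p _ => by rw [e1, mul_comm]
      simp only [e1, e2] at h5
      have e3 : ((Ce P0 mv i).card : ℝ) = Ii := by rw [hCi]
      rw [e3] at h5
      exact h5)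
  have h5 := hdual g
  have e1 : ∀ p : {P // P ∈ Ce P0 mv i}, ∑ p' : {P // P ∈ Ce P0 mv j}, g p' *
      sg (∑ c ∈ range G, u c * sy G p.1 p'.1 c) = ∑ p' : {P // P ∈ Ce P0 mv j},
      sg (∑ c ∈ range G, u c * sy G p.1 p'.1 c) * g p' := fun p =>
    Finset.sum_congr rfl fun p' _ => mul_comm _ _
  simp only [e1]
  refine h5.trans (mul_le_mul_of_nonneg_right ?_ (Finset.sum_nonneg fun _ _ => sq_nonneg _))
  have e2 : (Fintype.card {P // P ∈ Ce P0 mv i} : ℝ) = Ii := by
    rw [Fintype.card_coe, hCi]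
  have e3 : (Fintype.card {P // P ∈ Ce P0 mv j} : ℝ) = Ij := by
    rw [Fintype.card_coe, hCj]
  rw [e2, e3]
  have e4 : (2 * (G : ℝ) / Ii + 4 * G * dg P0 i / Real.sqrt Q) * Ii * Ij =
      (G / dg P0 j) * (1 + 2 * dg P0 i * Ii / Real.sqrt Q) * (2 * dg P0 j * Ij) := by
    field_simp
    ring
  have e5 : CC = (G / dg P0 j) * (1 + 2 * dg P0 i * Ii / Real.sqrt Q) * Q := by
    rw [hCC]
    have : 2 * (dg P0 i : ℝ) * Real.sqrt Q * Ii = 2 * dg P0 i * Ii / Real.sqrt Q * Q := by
      rw [div_mul_eq_mul_div, eq_div_iff hsQ.ne']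
      linear_combination (2 * (dg P0 i : ℝ) * Ii) * hsQ2
    rw [this]
    ring
  rw [e4, e5]
  exact mul_le_mul_of_nonneg_left hIjQ (by positivity)

end

theorem t_TRF (h1 : S_OPB) (h2 : S_DUA) (h3 : S_CHN) (h4 : S_IRC) (_h5 : S_PRD) : S_TRF := by
  intro k _ _ hch hk Δ hΔ N m P0 mv hN hC 𝒯 _ t Ψ hΨ1 hΨ2
  set Φ : (Fin m → 𝒯) → (∀ i j : Fin m, Fin (g' N P0 mv i j) → F2) → ℝ := fun τ s =>
    if ∃ T ∈ Fintype.piFinset (Ce P0 mv), (∀ i, t i (T i) = τ i) ∧ Ψ T (ext0 N P0 mv s) then 1 else 0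
    with hΦ
  have hΦT : ∀ T ∈ Fintype.piFinset (Ce P0 mv), ∀ s, Φ (fun i => t i (T i)) s =
      if Ψ T (ext0 N P0 mv s) then 1 else 0 := by
    intro T hT s
    simp only [hΦ]
    refine if_congr ?_ rfl rfl
    constructor
    · rintro ⟨T', hT', h6, h7⟩
      exact (hΨ1 T' hT' T hT h6 _).1 h7
    · intro h6
      exact ⟨T, hT, fun _ => rfl, h6⟩
  have key := h3 m (fun i => {P // P ∈ Ce P0 mv i}) (fun i j => Fin (g' N P0 mv i j) → F2)
    (fun _ => 𝒯) (fun i P => t i P.1) (fun i j P P' c => sy (gg N (dg P0) i j) P.1 P'.1 c)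
    (fun i j => if i ∈ mv ∧ j ∈ mv then 2 * (gg N (dg P0) i j : ℝ) / (Irn k (dg P0 i)).card +
        4 * gg N (dg P0) i j * dg P0 i / Real.sqrt ((Fintype.card k : ℝ) ^ dg P0 j) else 0)
    (by
      intro i j
      split_ifs
      · positivity
      · exact le_rfl)
    (by
      intro i j hij c hc g
      by_cases hm : i ∈ mv ∧ j ∈ mv
      · have hg' : g' N P0 mv i j = gg N (dg P0) i j := if_pos hm
        set u : ℕ → F2 := fun a => if h : a < g' N P0 mv i j then
          c (Pi.single ⟨a, h⟩ 1) else 0 with hu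
        have hcu : ∀ s : Fin (g' N P0 mv i j) → F2, c s = ∑ a : Fin (g' N P0 mv i j),
            u a * s a := by
          intro s
          have e1 : s = ∑ a, s a • (Pi.single a (1 : F2) : Fin (g' N P0 mv i j) → F2) := by
            funext b
            rw [Finset.sum_apply]
            simp [Pi.single_apply]
          conv_lhs => rw [e1]
          rw [map_sum]
          refine Finset.sum_congr rfl fun a _ => ?_
          rw [map_smul, smul_eq_mul, mul_comm]
          simp only [hu]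
          rw [dif_pos a.2]
        have hune : ∃ a < gg N (dg P0) i j, u a ≠ 0 := by
          by_contra hcon
          push Not at hcon
          apply hc
          refine LinearMap.ext fun s => ?_
          rw [hcu, LinearMap.zero_apply]
          refine Finset.sum_eq_zero fun a _ => ?_
          rw [hcon a (by rw [← hg']; exact a.2), zero_mul]
        have h6 := chars h1 h2 h4 hch hk P0 mv hN hC i j hij hm.1 hm.2 u hune g
        have e2 : ∀ (p : {P // P ∈ Ce P0 mv i}) (p' : {P // P ∈ Ce P0 mv j}),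
            c (fun a : Fin (g' N P0 mv i j) => sy (gg N (dg P0) i j) p.1 p'.1 a) =
            ∑ a ∈ range (gg N (dg P0) i j), u a * sy (gg N (dg P0) i j) p.1 p'.1 a := by
          intro p p'
          rw [hcu, ← hg', Finset.sum_range]
        simp only [e2]
        rw [if_pos hm]
        exact h6
      · exfalso
        apply hc
        have hg' : g' N P0 mv i j = 0 := if_neg hm
        refine LinearMap.ext fun s => ?_
        have : s = 0 := by
          funext a
          have h6 : (a : ℕ) < g' N P0 mv i j := a.2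
          omega
        rw [this, map_zero, map_zero])
    Φ (by
      intro τ s
      simp only [hΦ]
      split_ifs <;> norm_num)
    (by
      intro τ s s' hss
      simp only [hΦ]
      refine if_congr ?_ rfl rfl
      refine exists_congr fun T => and_congr_right fun hT => and_congr_right fun _ => ?_
      refine hΨ2 T _ _ fun i j hij hi hj => ?_
      funext a
      unfold ext0
      rw [hss i j hij])
  -- the first sum
  have e1 : ((((Fintype.piFinset (Ce P0 mv)).filter fun T => Ψ T (sT N P0 T)).card : ℕ) : ℝ) =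
      ∑ T : (∀ i, {P // P ∈ Ce P0 mv i}), Φ (fun i => t i (T i).1)
        (fun i j c => sy (gg N (dg P0) i j) (T i).1 (T j).1 c) := by
    rw [← Finset.sum_boole, sum_pi]
    refine Finset.sum_congr rfl fun T _ => ?_
    have hT : (fun i => (T i).1) ∈ Fintype.piFinset (Ce P0 mv) :=
      Fintype.mem_piFinset.2 fun i => (T i).2
    rw [hΦT _ hT]
    refine if_congr ?_ rfl rfl
    refine hΨ2 _ _ _ fun i j hij hi hj => ?_
    funext a
    unfold ext0 sT
    have h : (a : ℕ) < g' N P0 mv i j := by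
      unfold g'
      rw [if_pos ⟨hi, hj⟩]
      exact a.2
    rw [dif_pos h]
  -- the second sum
  have e2 : (∑ T ∈ Fintype.piFinset (Ce P0 mv), (((univ.filter fun s => Ψ T s).card : ℕ) : ℝ)) /
        Fintype.card (Bt N (dg P0)) = ∑ T : (∀ i, {P // P ∈ Ce P0 mv i}),
        (∑ s, Φ (fun i => t i (T i).1) s) /
          Fintype.card (∀ i j : Fin m, Fin (g' N P0 mv i j) → F2) := by
    rw [Finset.sum_div, sum_pi]
    refine Finset.sum_congr rfl fun T _ => ?_
    have hT : (fun i => (T i).1) ∈ Fintype.piFinset (Ce P0 mv) :=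
      Fintype.mem_piFinset.2 fun i => (T i).2
    rw [← mean_surj (res N P0 mv) (fun s => ⟨ext0 N P0 mv s, res_ext N P0 mv s⟩)]
    congr 1
    rw [← Finset.sum_boole]
    refine Finset.sum_congr rfl fun s _ => ?_
    rw [hΦT _ hT]
    refine if_congr ?_ rfl rfl
    exact hΨ2 _ _ _ fun i j _ hi hj => (ext_res N P0 mv s hi hj).symm
  rw [e1, e2, ← Finset.sum_sub_distrib]
  refine key.trans (le_of_eq ?_)
  have e3 : ∏ i, (Fintype.card {P // P ∈ Ce P0 mv i} : ℝ) =
      ((Fintype.piFinset (Ce P0 mv)).card : ℝ) := by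
    rw [Fintype.card_piFinset]
    push_cast
    exact Finset.prod_congr rfl fun i _ => by rw [Fintype.card_coe]
  rw [e3]
  congr 1
  unfold erT
  refine Finset.sum_congr rfl fun i _ => Finset.sum_congr rfl fun j _ => ?_
  by_cases hij : i < j
  · by_cases hm : i ∈ mv ∧ j ∈ mv
    · rw [if_pos hij, if_pos hm, if_pos ⟨hij, hm⟩]
      congr 2
      have e4 : (∏ l, if l ≤ i then (Fintype.card (Fin (g' N P0 mv l j) → F2) : ℝ) else 1) =
          2 ^ (∑ l ∈ mv.filter (· ≤ i), gg N (dg P0) l j) := by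
        rw [← Finset.prod_pow_eq_pow_sum, ← Finset.prod_filter]
        have e5 : ∀ l, (Fintype.card (Fin (g' N P0 mv l j) → F2) : ℝ) = 2 ^ g' N P0 mv l j := by
          intro l
          rw [Fintype.card_fun, Fintype.card_fin]
          push_cast
          norm_num
        simp only [e5]
        refine (Finset.prod_subset_one_on_sdiff ?_ ?_ ?_).symm
        · intro l hl
          rw [Finset.mem_filter] at hl ⊢
          exact ⟨Finset.mem_univ _, hl.2⟩
        · intro l hl
          rw [Finset.mem_sdiff, Finset.mem_filter, Finset.mem_filter] at hl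
          have : l ∉ mv := fun h => hl.2 ⟨h, hl.1.2⟩
          unfold g'
          rw [if_neg (fun h => this h.1), pow_zero]
        · intro l hl
          rw [Finset.mem_filter] at hl
          unfold g'
          rw [if_pos ⟨hl.1, hm.2⟩]
      rw [e4]
    · rw [if_pos hij, if_neg hm, if_neg (fun h => hm h.2), mul_zero, Real.sqrt_zero]
  · rw [if_neg hij, if_neg (fun h => hij h.1)]

end Pool.Agent.Q162.GR
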