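import Pool.Agent.Q269.GR.StD

/-! Project GR (helper269), job TYB: almost all twists are typical (B). -/

set_option autoImplicit false

open scoped Classical
open Finset Polynomial

namespace Pool.Agent.Q162.GR

open Pool.Agent.Q269.GR
open Pool.Agent.Y164.PS (L sg)

lemma sum_inv_le {n : ℕ} : ∑ d ∈ Icc 1 n, 1 / (d : ℝ) ≤ 1 + Real.log n := by
  have h1 := harmonic_le_one_add_log n
  rw [harmonic_eq_sum_Icc] at h1
  push_cast at h1
  simpa only [one_div] using h1

/-- Markov's inequality for the number of prime divisors -/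
lemma markov (h2 : S_AVP) {k : Type} [Field k] [Fintype k] (hk : 5 ≤ Fintype.card k) (Δ : k[X])
    (hΔ : Δ ≠ 0) (n : ℕ) (hn : 1 ≤ n) (T : ℕ) :
    (((Dn Δ n).filter fun D => T < (pr D).card).card : ℝ) * T ≤
      (Fintype.card k : ℝ) ^ n * (1 + Real.log n) := by
  have h3 := (h2 k hk Δ hΔ n hn).2.1 (fun _ => True)
  simp only [Finset.filter_true] at h3
  have hq : (0 : ℝ) ≤ (Fintype.card k : ℝ) ^ n := by positivity
  have h4 := mul_le_mul_of_nonneg_left (sum_inv_le (n := n)) hq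
  have h5 : (((Dn Δ n).filter fun D => T < (pr D).card).card : ℝ) * T ≤
      ∑ D ∈ Dn Δ n, ((pr D).card : ℝ) := by
    calc (((Dn Δ n).filter fun D => T < (pr D).card).card : ℝ) * T =
          ∑ _D ∈ (Dn Δ n).filter (fun D => T < (pr D).card), (T : ℝ) := by
          rw [Finset.sum_const, nsmul_eq_mul]
      _ ≤ ∑ D ∈ (Dn Δ n).filter (fun D => T < (pr D).card), ((pr D).card : ℝ) := by
          refine Finset.sum_le_sum fun D hD => ?_
          have := (Finset.mem_filter.1 hD).2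
          exact_mod_cast this.le
      _ ≤ _ := Finset.sum_le_sum_of_subset_of_nonneg (Finset.filter_subset _ _)
          (fun _ _ _ => Nat.cast_nonneg _)
  exact h5.trans (h3.trans h4)

theorem t_TYB (h1 : S_TNP) (h2 : S_AVP) : S_TYB := by
  intro k _ _ hk Δ hΔ ε hε
  obtain ⟨h1t, h1b⟩ := h1
  obtain ⟨T, hT⟩ := exists_nat_ge (1026 / ε)
  have h3 : ∀ᶠ n in Filter.atTop, max 1 T ≤ tn n := h1t.eventually_ge_atTop _
  filter_upwards [h3, Filter.eventually_ge_atTop 1] with n hn hn1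
  have ht1 : 1 ≤ tn n := (le_max_left _ _).trans hn
  have htT : T ≤ tn n := (le_max_right _ _).trans hn
  set t : ℝ := (tn n : ℝ) with ht
  have ht1' : (1 : ℝ) ≤ t := by rw [ht]; exact_mod_cast ht1
  have ht0 : 0 < t := by linarith
  have htT' : 1026 / ε ≤ t := hT.trans (by rw [ht]; exact_mod_cast htT)
  set q : ℝ := (Fintype.card k : ℝ) ^ n with hq
  have hq0 : 0 ≤ q := by positivity
  have hsub : Dn Δ n \ XB Δ n ⊆ ((Dn Δ n).filter fun D => tn n ^ 12 < (pr D).card) ∪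
      ((Dn Δ n).filter fun D => ∃ P ∈ pr D, ∃ P' ∈ pr D, tn n ^ 8 < P.natDegree ∧
        P.natDegree = P'.natDegree ∧ P ≠ P') := by
    intro D hD
    rw [Finset.mem_sdiff] at hD
    obtain ⟨hD1, hD2⟩ := hD
    rw [Finset.mem_union, Finset.mem_filter, Finset.mem_filter]
    by_contra hc
    push Not at hc
    apply hD2
    unfold XB
    rw [Finset.mem_filter]
    exact ⟨hD1, hc.1 hD1, hc.2 hD1⟩
  have hA1 := markov h2 hk Δ hΔ n hn1 (tn n ^ 12)
  have hA2 := (h2 k hk Δ hΔ n hn1).2.2 (tn n ^ 8) (Nat.one_le_pow _ _ ht1)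
  have hlog := (h1b n hn1).2
  rw [← hq] at hA1 hA2
  push_cast at hA1 hA2
  rw [← ht] at hA1 hA2 hlog
  set a1 : ℝ := (((Dn Δ n).filter fun D => tn n ^ 12 < (pr D).card).card : ℝ) with ha1
  set a2 : ℝ := (((Dn Δ n).filter fun D => ∃ P ∈ pr D, ∃ P' ∈ pr D, tn n ^ 8 < P.natDegree ∧
        P.natDegree = P'.natDegree ∧ P ≠ P').card : ℝ) with ha2
  have hcard : ((Dn Δ n \ XB Δ n).card : ℝ) ≤ a1 + a2 := by
    rw [ha1, ha2]
    exact_mod_cast (Finset.card_le_card hsub).trans (Finset.card_union_le _ _)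
  have h4 : a1 ≤ q * (1025 / t ^ 2) := by
    have h5 : a1 * t ^ 12 ≤ q * (1025 * t ^ 10) := by
      refine hA1.trans (mul_le_mul_of_nonneg_left ?_ hq0)
      have h6 : (t + 1) ^ 10 ≤ (2 * t) ^ 10 := pow_le_pow_left₀ (by positivity) (by linarith) _
      have h7 : (1 : ℝ) ≤ t ^ 10 := one_le_pow₀ ht1'
      have h8 : (2 * t) ^ 10 = 1024 * t ^ 10 := by ring
      linarith
    have h6 : q * (1025 / t ^ 2) = q * (1025 * t ^ 10) / t ^ 12 := by
      field_simp
    rw [h6, le_div_iff₀ (by positivity)]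
    exact h5
  have h5 : a2 ≤ q * (1 / t ^ 2) := by
    refine hA2.trans ?_
    rw [mul_one_div]
    apply div_le_div_of_nonneg_left hq0 (by positivity)
    exact pow_le_pow_right₀ ht1' (by norm_num)
  have h6 : 1026 / t ^ 2 ≤ ε := by
    rw [div_le_iff₀ (by positivity)]
    rw [div_le_iff₀ hε] at htT'
    nlinarith
  calc ((Dn Δ n \ XB Δ n).card : ℝ) ≤ a1 + a2 := hcard
    _ ≤ q * (1025 / t ^ 2) + q * (1 / t ^ 2) := add_le_add h4 h5
    _ = q * (1026 / t ^ 2) := by ring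
    _ ≤ q * ε := mul_le_mul_of_nonneg_left h6 hq0
    _ = ε * q := mul_comm _ _

end Pool.Agent.Q162.GR
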